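import Mathlib

set_option autoImplicit false

/-!
# Free products for `p = 2`: definitions and the statements of the pieces
-/

namespace Pool.Agent.V7H55.FP

section Alg

variable {G K S : Type} [Group G] [Field K] [MulSemiringAction G K] [MulAction G S]

/-- `x` is fixed by `U` -/
def Fx (U : Subgroup G) (x : K) : Prop := ∀ u ∈ U, u • x = x

/-- `f` is `U`-equivariant -/
def Ev (U : Subgroup G) (f : S → K) : Prop := ∀ u ∈ U, ∀ s, f (u • s) = u • f s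

variable (K S) in
/-- local-global principle for norms and approximation -/
structure Ax (U : Subgroup G) : Prop where
  h1 : ∀ x y : K, Fx U x → Fx U y → x ≠ 0 → y ≠ 0 →
    (∃ r t : S → K, Ev U r ∧ Ev U t ∧ ∀ s, y = r s ^ 2 - x * t s ^ 2) →
    ∃ r t : K, Fx U r ∧ Fx U t ∧ y = r ^ 2 - x * t ^ 2
  h2 : ∀ z : S → K, Ev U z → (∀ s, z s ≠ 0) →
    ∃ z0 : K, Fx U z0 ∧ z0 ≠ 0 ∧ ∃ r : S → K, Ev U r ∧ ∀ s, r s ≠ 0 ∧ z s = z0 * r s ^ 2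

/-- `θ` is locally constant on `H` -/
def LC {P : Type} [TopologicalSpace G] (H : Subgroup G) (θ : G → P) : Prop :=
  ∃ W : Subgroup G, IsOpen (W : Set G) ∧ ∀ h ∈ H, ∀ w ∈ H, w ∈ W → θ (h * w) = θ h

open Classical in
/-- the character of a square root -/
noncomputable def sg (β : K) (g : G) : ZMod 2 := if g • β = β then 0 else 1

end Alg

/-- CH: equivariant choice -/
def S_CH : Prop := ∀ (G S V : Type) [Group G] [MulAction G S] [MulAction G V] (U : Subgroup G)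
    (Q : S → V → Prop), (∀ u ∈ U, ∀ s v, Q s v → Q (u • s) (u • v)) →
    (∀ s, ∃ v, (∀ u ∈ U, u • s = s → u • v = v) ∧ Q s v) →
    ∃ f : S → V, (∀ u ∈ U, ∀ s, f (u • s) = u • f s) ∧ ∀ s, Q s (f s)

/-- LG: the local-global principle for isotropy of diagonal forms -/
def S_LG : Prop := ∀ (G K S : Type) [Group G] [Field K] [MulSemiringAction G K] [MulAction G S]
    (U : Subgroup G), (2 : K) ≠ 0 → Ax K S U → ∀ (n : ℕ), 3 ≤ n → ∀ a : Fin n → K,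
    (∀ i, Fx U (a i) ∧ a i ≠ 0) → ∀ x : S → Fin n → K, (∀ i, Ev U (fun s => x s i)) →
    (∀ s, x s ≠ 0) → (∀ s, ∑ i, a i * x s i ^ 2 = 0) →
    ∃ v : Fin n → K, v ≠ 0 ∧ (∀ i, Fx U (v i)) ∧ ∑ i, a i * v i ^ 2 = 0

/-- the hypothesis `[U : U'] = 2`, `w` is fixed by `U'` and `τ w = - w`, `τ ∈ U`, `τ ∉ U'` -/
def Half {G K : Type} [Group G] [Field K] [MulSemiringAction G K] (U U' : Subgroup G) (τ : G)
    (w : K) : Prop :=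
  U' ≤ U ∧ τ ∈ U ∧ τ ∉ U' ∧ (∀ u ∈ U, u ∈ U' ∨ τ⁻¹ * u ∈ U') ∧ w ≠ 0 ∧ Fx U' w ∧ τ • w = -w

/-- ST2: approximation for a quadratic extension -/
def S_ST2 : Prop := ∀ (G K S : Type) [Group G] [Field K] [MulSemiringAction G K] [MulAction G S]
    (U U' : Subgroup G) (τ : G) (w : K), (2 : K) ≠ 0 → Half U U' τ w → Ax K S U →
    ∀ z : S → K, Ev U' z → (∀ s, z s ≠ 0) →
    ∃ z0 : K, Fx U' z0 ∧ z0 ≠ 0 ∧ ∃ r : S → K, Ev U' r ∧ ∀ s, r s ≠ 0 ∧ z s = z0 * r s ^ 2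

/-- ST1: the local-global principle for a quadratic extension -/
def S_ST1 : Prop := ∀ (G K S : Type) [Group G] [Field K] [MulSemiringAction G K] [MulAction G S]
    (U U' : Subgroup G) (τ : G) (w : K), (2 : K) ≠ 0 → Half U U' τ w → Ax K S U →
    ∀ x y : K, Fx U' x → Fx U' y → x ≠ 0 → y ≠ 0 →
    (∃ r t : S → K, Ev U' r ∧ Ev U' t ∧ ∀ s, y = r s ^ 2 - x * t s ^ 2) →
    ∃ r t : K, Fx U' r ∧ Fx U' t ∧ y = r ^ 2 - x * t ^ 2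

/-- KU: characters are given by square roots -/
def S_KU : Prop := ∀ (F K : Type) [Field F] [Field K] [Algebra F K] [IsGalois F K], (2 : K) ≠ 0 →
    ∀ (H : Subgroup (K ≃ₐ[F] K)), IsClosed (H : Set (K ≃ₐ[F] K)) →
    ∀ e : (K ≃ₐ[F] K) → ZMod 2, LC H e → (∀ g ∈ H, ∀ h ∈ H, e (g * h) = e g + e h) →
    ∃ γ : K, γ ≠ 0 ∧ Fx H (γ ^ 2) ∧ ∀ h ∈ H, e h = sg γ h

/-- D1: norms give coboundaries -/
def S_D1 : Prop := ∀ (F K : Type) [Field F] [Field K] [Algebra F K] [IsGalois F K], (2 : K) ≠ 0 →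
    (∀ x : K, ∃ y, y ^ 2 = x) →
    ∀ (H : Subgroup (K ≃ₐ[F] K)) (α β r t : K), α ≠ 0 → β ≠ 0 → Fx H (α ^ 2) → Fx H (β ^ 2) →
    Fx H r → Fx H t → β ^ 2 = r ^ 2 - α ^ 2 * t ^ 2 →
    ∃ e : (K ≃ₐ[F] K) → ZMod 2, LC H e ∧
      ∀ g ∈ H, ∀ h ∈ H, e (g * h) = e g + e h + sg β g * sg α h

/-- D2: coboundaries give norms -/
def S_D2 : Prop := ∀ (F K : Type) [Field F] [Field K] [Algebra F K] [IsGalois F K], (2 : K) ≠ 0 →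
    (∀ x : K, ∃ y, y ^ 2 = x) →
    ∀ (H : Subgroup (K ≃ₐ[F] K)), IsClosed (H : Set (K ≃ₐ[F] K)) →
    ∀ (α β : K), α ≠ 0 → β ≠ 0 → Fx H (α ^ 2) → Fx H (β ^ 2) →
    ∀ e : (K ≃ₐ[F] K) → ZMod 2, LC H e →
    (∀ g ∈ H, ∀ h ∈ H, e (g * h) = e g + e h + sg β g * sg α h) →
    ∃ r t : K, Fx H r ∧ Fx H t ∧ β ^ 2 = r ^ 2 - α ^ 2 * t ^ 2

/-- a central extension of groups with kernel `{1, ζ}` of order two -/
def Cen {P Q : Type} [Group P] [Group Q] (π : P →* Q) (ζ : P) : Prop :=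
  Function.Surjective π ∧ ζ ≠ 1 ∧ ζ * ζ = 1 ∧ (∀ x, ζ * x = x * ζ) ∧ ∀ x, π x = 1 ↔ x = 1 ∨ x = ζ

/-- G1: a lifting problem which is solvable over a quadratic extension differs from a symbol -/
def S_G1 : Prop := ∀ (F K : Type) [Field F] [Field K] [Algebra F K] [IsGalois F K], (2 : K) ≠ 0 →
    ∀ (U : Subgroup (K ≃ₐ[F] K)), IsClosed (U : Set (K ≃ₐ[F] K)) →
    ∀ (P Q : Type) [Group P] [Group Q] (π : P →* Q) (ζ : P), Cen π ζ →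
    ∀ (ψ : (K ≃ₐ[F] K) →* Q), IsOpen (ψ.ker : Set (K ≃ₐ[F] K)) →
    ∀ (α : K), α ≠ 0 → Fx U (α ^ 2) →
    ∀ (U' : Subgroup (K ≃ₐ[F] K)), (∀ g, g ∈ U' ↔ g ∈ U ∧ g • α = α) →
    ∀ θ : (K ≃ₐ[F] K) → P, LC U' θ → (∀ g ∈ U', π (θ g) = ψ g) →
    (∀ g ∈ U', ∀ h ∈ U', θ (g * h) = θ g * θ h) →
    ∃ β : K, β ≠ 0 ∧ Fx U (β ^ 2) ∧ ∃ θ' : (K ≃ₐ[F] K) → P, LC U θ' ∧
      (∀ g ∈ U, π (θ' g) = ψ g) ∧
      ∀ g ∈ U, ∀ h ∈ U, θ' (g * h) = θ' g * θ' h * ζ ^ (sg β g * sg α h).val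

/-- LI: the lifting theorem -/
def S_LI : Prop := ∀ (F K : Type) [Field F] [Field K] [Algebra F K] [IsGalois F K], (2 : K) ≠ 0 →
    (∀ x : K, ∃ y, y ^ 2 = x) →
    (∀ V : Subgroup (K ≃ₐ[F] K), V.Normal → IsOpen (V : Set (K ≃ₐ[F] K)) →
      ∃ k : ℕ, V.index = 2 ^ k) →
    ∀ (S : Type) [MulAction (K ≃ₐ[F] K) S],
    (∀ s : S, IsClosed (MulAction.stabilizer (K ≃ₐ[F] K) s : Set (K ≃ₐ[F] K))) →
    Ax K S (⊤ : Subgroup (K ≃ₐ[F] K)) →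
    ∀ (P Q : Type) [Group P] [Group Q] (π : P →* Q) (ζ : P), Cen π ζ →
    ∀ (ψ : (K ≃ₐ[F] K) →* Q), IsOpen (ψ.ker : Set (K ≃ₐ[F] K)) →
    (∀ s : S, ∃ θ : (K ≃ₐ[F] K) → P, LC (MulAction.stabilizer (K ≃ₐ[F] K) s) θ ∧
      (∀ g ∈ MulAction.stabilizer (K ≃ₐ[F] K) s, π (θ g) = ψ g) ∧
      ∀ g ∈ MulAction.stabilizer (K ≃ₐ[F] K) s, ∀ h ∈ MulAction.stabilizer (K ≃ₐ[F] K) s,
        θ (g * h) = θ g * θ h) →
    ∃ θ : (K ≃ₐ[F] K) →* P, IsOpen (θ.ker : Set (K ≃ₐ[F] K)) ∧ ∀ g, π (θ g) = ψ g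

/-- BA: the axioms for the `G`-set of the cosets of closed subgroups -/
def S_BA : Prop := ∀ (G K : Type) [Group G] [Field K] [MulSemiringAction G K] (n : ℕ)
    (D : Fin n → Subgroup G),
    (∀ x y : K, Fx (⊤ : Subgroup G) x → Fx (⊤ : Subgroup G) y → x ≠ 0 → y ≠ 0 →
      (∀ i, ∃ r t : K, Fx (D i) r ∧ Fx (D i) t ∧ y = r ^ 2 - x * t ^ 2) →
      ∃ r t : K, Fx (⊤ : Subgroup G) r ∧ Fx (⊤ : Subgroup G) t ∧ y = r ^ 2 - x * t ^ 2) →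
    (∀ z : Fin n → K, (∀ i, Fx (D i) (z i) ∧ z i ≠ 0) → ∃ z0 : K, Fx (⊤ : Subgroup G) z0 ∧
      z0 ≠ 0 ∧ ∀ i, ∃ r : K, Fx (D i) r ∧ r ≠ 0 ∧ z i = z0 * r ^ 2) →
    Ax K (Σ i : Fin n, G ⧸ D i) (⊤ : Subgroup G)

/-- FR: free products -/
def S_FR : Prop := ∀ (F K : Type) [Field F] [Field K] [Algebra F K] [IsGalois F K], (2 : K) ≠ 0 →
    (∀ x : K, ∃ y, y ^ 2 = x) →
    (∀ V : Subgroup (K ≃ₐ[F] K), V.Normal → IsOpen (V : Set (K ≃ₐ[F] K)) →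
      ∃ k : ℕ, V.index = 2 ^ k) →
    ∀ (n : ℕ) (D : Fin n → Subgroup (K ≃ₐ[F] K)), (∀ i, IsClosed (D i : Set (K ≃ₐ[F] K))) →
    Ax K (Σ i : Fin n, (K ≃ₐ[F] K) ⧸ D i) (⊤ : Subgroup (K ≃ₐ[F] K)) →
    (∀ y : K, Fx (⊤ : Subgroup (K ≃ₐ[F] K)) (y ^ 2) → (∀ i, Fx (D i) y) →
      Fx (⊤ : Subgroup (K ≃ₐ[F] K)) y) →
    ∀ (P : Type) [Group P] [Finite P], (∃ k : ℕ, Nat.card P = 2 ^ k) →
    ∀ φ : (i : Fin n) → (D i →* P), (∀ i, IsOpen ((φ i).ker : Set (D i))) →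
      ∃! ψ : (K ≃ₐ[F] K) →* P, IsOpen (ψ.ker : Set (K ≃ₐ[F] K)) ∧
        ∀ i, ∀ x : D i, ψ (x : K ≃ₐ[F] K) = φ i x

end Pool.Agent.V7H55.FP
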