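import Mathlib
import Pool.Agent.V7H55.FP.Defs

set_option autoImplicit false

/-!
# Free products for `p = 2`, with a free factor: the statements of the pieces
-/

namespace Pool.Agent.V7H55.FP

/-- all finite continuous quotients are 2-groups -/
def Pro2 (G : Type) [Group G] [TopologicalSpace G] : Prop :=
  ∀ V : Subgroup G, V.Normal → IsOpen (V : Set G) → ∃ k : ℕ, V.index = 2 ^ k

/-- ZP: an element of infinite order generates `ℤ_2` -/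
def S_ZP : Prop := ∀ (F K : Type) [Field F] [Field K] [Algebra F K] [IsGalois F K],
    Pro2 (K ≃ₐ[F] K) → ∀ σ : K ≃ₐ[F] K, (∀ n : ℕ, 0 < n → σ ^ n ≠ 1) →
    Nonempty ((Subgroup.zpowers σ).topologicalClosure ≃ₜ* Multiplicative (PadicInt 2))

/-- AS: an element of finite order gives an ordering -/
def S_AS : Prop := ∀ (F K : Type) [Field F] [Field K] [Algebra F K] [IsGalois F K], (2 : K) ≠ 0 →
    (∀ x : K, ∃ y, y ^ 2 = x) → Pro2 (K ≃ₐ[F] K) → ∀ σ : K ≃ₐ[F] K, σ ≠ 1 →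
    ∀ n : ℕ, 0 < n → σ ^ n = 1 →
    ∃ (_ : LinearOrder F) (_ : IsStrictOrderedRing F), ∀ x : Fˣ,
      (∃ y : K, y ^ 2 = algebraMap F K x ∧ σ y = y) ↔ (0 : F) < x

/-- SEP: symbols separate -/
def S_SEP : Prop := ∀ (F K : Type) [Field F] [Field K] [Algebra F K] [IsGalois F K], (2 : K) ≠ 0 →
    (∀ x : K, ∃ y, y ^ 2 = x) → ∀ a b : Fˣ, (¬ ∃ r t : F, (b : F) = r ^ 2 - a * t ^ 2) →
    ∃ c : Fˣ → Fˣ → ZMod 2, (∀ x y z, c (x * y) z = c x z + c y z) ∧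
      (∀ x y z, c x (y * z) = c x y + c x z) ∧
      (∀ x y : Fˣ, (∃ r t : F, (y : F) = r ^ 2 - x * t ^ 2) → c x y = 0) ∧ c a b ≠ 0

/-- FR2: free products, with free factors -/
def S_FR2 : Prop := ∀ (F K : Type) [Field F] [Field K] [Algebra F K] [IsGalois F K], (2 : K) ≠ 0 →
    (∀ x : K, ∃ y, y ^ 2 = x) → Pro2 (K ≃ₐ[F] K) →
    ∀ (n : ℕ) (D : Fin n → Subgroup (K ≃ₐ[F] K)), (∀ i, IsClosed (D i : Set (K ≃ₐ[F] K))) →
    Ax K (Σ i : Fin n, (K ≃ₐ[F] K) ⧸ D i) (⊤ : Subgroup (K ≃ₐ[F] K)) →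
    ∀ (r : ℕ) (σ : Fin r → (K ≃ₐ[F] K)),
    (∀ γ : Fin n → K, (∀ i, γ i ≠ 0 ∧ Fx (D i) (γ i ^ 2)) → ∀ ε : Fin r → ZMod 2,
      ∃ δ : K, δ ≠ 0 ∧ Fx (⊤ : Subgroup (K ≃ₐ[F] K)) (δ ^ 2) ∧
        (∀ i, ∀ d ∈ D i, sg δ d = sg (γ i) d) ∧ ∀ j, sg δ (σ j) = ε j) →
    (∀ y : K, Fx (⊤ : Subgroup (K ≃ₐ[F] K)) (y ^ 2) → (∀ i, Fx (D i) y) → (∀ j, σ j • y = y) →
      Fx (⊤ : Subgroup (K ≃ₐ[F] K)) y) →
    ∀ (P : Type) [Group P] [Finite P], (∃ k : ℕ, Nat.card P = 2 ^ k) →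
    ∀ φ : (i : Fin n) → (D i →* P), (∀ i, IsOpen ((φ i).ker : Set (D i))) → ∀ q : Fin r → P,
      ∃! ψ : (K ≃ₐ[F] K) →* P, IsOpen (ψ.ker : Set (K ≃ₐ[F] K)) ∧
        (∀ i, ∀ x : D i, ψ (x : K ≃ₐ[F] K) = φ i x) ∧ ∀ j, ψ (σ j) = q j

/-- FR3: the universal property for the subgroups `D i` and the closures of the `⟨σ j⟩` -/
def S_FR3 : Prop := ∀ (G : Type) [Group G] [TopologicalSpace G] [IsTopologicalGroup G] (n r : ℕ)
    (D : Fin n → Subgroup G) (σ : Fin r → G),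
    (∀ (P : Type) [Group P] [Finite P], (∃ k : ℕ, Nat.card P = 2 ^ k) →
    ∀ φ : (i : Fin n) → (D i →* P), (∀ i, IsOpen ((φ i).ker : Set (D i))) → ∀ q : Fin r → P,
      ∃! ψ : G →* P, IsOpen (ψ.ker : Set G) ∧
        (∀ i, ∀ x : D i, ψ (x : G) = φ i x) ∧ ∀ j, ψ (σ j) = q j) →
    ∀ H : Fin (n + r) → Subgroup G, (∀ i : Fin n, H (Fin.castAdd r i) = D i) →
    (∀ j : Fin r, H (Fin.natAdd n j) = (Subgroup.zpowers (σ j)).topologicalClosure) →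
    ∀ (P : Type) [Group P] [Finite P], (∃ k : ℕ, Nat.card P = 2 ^ k) →
    ∀ φ : (i : Fin (n + r)) → (H i →* P), (∀ i, IsOpen ((φ i).ker : Set (H i))) →
      ∃! ψ : G →* P, IsOpen (ψ.ker : Set G) ∧ ∀ i, ∀ x : H i, ψ (x : G) = φ i x

end Pool.Agent.V7H55.FP
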