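import Mathlib
import Pool.Agent.V7H55.FP.Defs2

set_option autoImplicit false

/-!
# Free products for `p = 2`: the subgroup generated by closed subgroups
-/

namespace Pool.Agent.V7H55.FP

/-- SUB: `H` is generated by the `D i`; square classes and norms of its fixed field are determined by
the fixed fields of the `D i`; then `H` is the free pro-2 product of the `D i` -/
def S_SUB : Prop := ∀ (F : Type) [Field F] (K : IntermediateField F (AlgebraicClosure F))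
    [IsGalois F K], (2 : K) ≠ 0 → (∀ x : K, ∃ y, y ^ 2 = x) →
    (∀ x : K, ∃ L : IntermediateField F K, x ∈ L ∧ FiniteDimensional F L ∧ IsGalois F L ∧
      ∃ k : ℕ, Module.finrank F L = 2 ^ k) →
    ∀ (n : ℕ) (D : Fin n → Subgroup (↥K ≃ₐ[F] ↥K)),
    (∀ i, IsClosed (D i : Set (↥K ≃ₐ[F] ↥K))) →
    ∀ H : Subgroup (↥K ≃ₐ[F] ↥K), IsClosed (H : Set (↥K ≃ₐ[F] ↥K)) → ∀ hle : ∀ i, D i ≤ H,
    (∀ y : K, (∀ i, Fx (D i) y) → Fx H y) →
    (∀ x y : K, Fx H x → Fx H y → x ≠ 0 → y ≠ 0 →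
      (∀ i, ∃ r t : K, Fx (D i) r ∧ Fx (D i) t ∧ y = r ^ 2 - x * t ^ 2) →
      ∃ r t : K, Fx H r ∧ Fx H t ∧ y = r ^ 2 - x * t ^ 2) →
    (∀ z : Fin n → K, (∀ i, Fx (D i) (z i) ∧ z i ≠ 0) → ∃ z0 : K, Fx H z0 ∧
      z0 ≠ 0 ∧ ∀ i, ∃ r : K, Fx (D i) r ∧ r ≠ 0 ∧ z i = z0 * r ^ 2) →
    ∀ (P : Type) [Group P] [Finite P], (∃ k : ℕ, Nat.card P = 2 ^ k) →
    ∀ φ : (i : Fin n) → (D i →* P), (∀ i, IsOpen ((φ i).ker : Set (D i))) →
      ∃! ψ : H →* P, IsOpen (ψ.ker : Set H) ∧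
        ∀ i, ∀ x : D i, ψ (Subgroup.inclusion (hle i) x) = φ i x

end Pool.Agent.V7H55.FP
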