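import Mathlib
import Pool.Agent.V7H55.FP.Defs2

set_option autoImplicit false

/-!
# Free products for `p = 2`: Kummer duality and linear algebra
-/

namespace Pool.Agent.V7H55.FP

/-- KD: Kummer duality -/
def S_KD : Prop := ∀ (F K : Type) [Field F] [Field K] [Algebra F K] [IsGalois F K], (2 : K) ≠ 0 →
    (∀ x : K, ∃ y, y ^ 2 = x) → (powMonoidHom 2 : Fˣ →* Fˣ).range.index ≠ 0 →
    ∀ χ : Fˣ → ZMod 2, (∀ x y, χ (x * y) = χ x + χ y) →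
    ∃ σ : K ≃ₐ[F] K, ∀ (x : Fˣ) (y : K), y ^ 2 = algebraMap F K x → sg y σ = χ x

/-- LA: dual families -/
def S_LA : Prop := ∀ (M : Type) [CommGroup M] (Q R : Subgroup M), (∀ x : M, x ^ 2 ∈ Q) → Q ≤ R →
    Q.index ≠ 0 → ∀ ε : M, ∃ (r : ℕ) (v : Fin r → M) (χ : Fin r → M → ZMod 2),
      (∀ j, v j ∈ R) ∧ (∀ j x y, χ j (x * y) = χ j x + χ j y) ∧ (∀ j, ∀ x ∈ Q, χ j x = 0) ∧
      (∀ j l, χ j (v l) = if j = l then 1 else 0) ∧ (∀ x ∈ R, (∀ j, χ j x = 0) → x ∈ Q) ∧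
      (ε ∉ R → ∀ j, χ j ε = 0)

end Pool.Agent.V7H55.FP
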