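import Mathlib
import Pool.Agent.V7H55.ET2.FinA
import Pool.Agent.V7H55.FP.Defs3

set_option autoImplicit false

/-!
# Free products for `p = 2`: the converse, and small remainders
-/

namespace Pool.Agent.V7H55.FP

open Pool.Agent.V7H55.ET (Adm Sym near)
open Pool.Agent.V7H55.ET2 (IsCone)
open Pool.Agent.Y920.EP (pwG)

/-- SM: no symbols modulo groups of small index -/
def S_SM : Prop := ∀ (F : Type) [Field F], (2 : F) ≠ 0 → (pwG F 2).index ≠ 0 →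
    ∀ T : Subgroup Fˣ, pwG F 2 ≤ T → (∀ O : ValuationSubring F, ¬ Adm 2 T O) →
    (∀ P : Subgroup Fˣ, IsCone P → ¬ T ≤ P) →
    (T.index ≤ 2 ∨ (T.index = 4 ∧ -1 ∈ T)) → ∀ e ∈ Sym 2 T, e = 0

/-- the universal property of the free pro-2 product -/
def FreeP {G : Type} [Group G] [TopologicalSpace G] {n : ℕ} (H : Fin n → Subgroup G) : Prop :=
  ∀ (P : Type) [Group P] [Finite P], (∃ k : ℕ, Nat.card P = 2 ^ k) →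
    ∀ φ : (i : Fin n) → (H i →* P), (∀ i, IsOpen ((φ i).ker : Set (H i))) →
      ∃! ψ : G →* P, IsOpen (ψ.ker : Set G) ∧ ∀ i, ∀ x : H i, ψ (x : G) = φ i x

/-- C1: consequences of the universal property for square classes and norms -/
def S_C1 : Prop := ∀ (F K : Type) [Field F] [Field K] [Algebra F K] [IsGalois F K], (2 : K) ≠ 0 →
    (∀ x : K, ∃ y, y ^ 2 = x) → ∀ (n : ℕ) (H : Fin n → Subgroup (K ≃ₐ[F] K)), FreeP H →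
    (∀ γ : Fin n → K, (∀ i, γ i ≠ 0 ∧ Fx (H i) (γ i ^ 2)) →
      ∃ δ : K, δ ≠ 0 ∧ Fx (⊤ : Subgroup (K ≃ₐ[F] K)) (δ ^ 2) ∧
        ∀ i, ∀ d ∈ H i, sg δ d = sg (γ i) d) ∧
    (∀ y : K, Fx (⊤ : Subgroup (K ≃ₐ[F] K)) (y ^ 2) → (∀ i, Fx (H i) y) →
      Fx (⊤ : Subgroup (K ≃ₐ[F] K)) y) ∧
    ∀ a b : K, Fx (⊤ : Subgroup (K ≃ₐ[F] K)) a → Fx (⊤ : Subgroup (K ≃ₐ[F] K)) b → a ≠ 0 → b ≠ 0 →
      (∀ i, ∃ r t : K, Fx (H i) r ∧ Fx (H i) t ∧ b = r ^ 2 - a * t ^ 2) →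
      ∃ r t : K, Fx (⊤ : Subgroup (K ≃ₐ[F] K)) r ∧ Fx (⊤ : Subgroup (K ≃ₐ[F] K)) t ∧
        b = r ^ 2 - a * t ^ 2

/-- `H` is the decomposition group of a valuation of `K` with nontrivial inertia, 2 is a unit -/
def TDec {F K : Type} [Field F] [Field K] [Algebra F K] (H : Subgroup (K ≃ₐ[F] K)) : Prop :=
  ∃ (Γ : Type) (_ : LinearOrderedCommGroupWithZero Γ) (w : Valuation K Γ),
    (∀ σ : K ≃ₐ[F] K, σ ∈ H ↔ ∀ x : K, (w (σ x) ≤ 1 ↔ w x ≤ 1)) ∧ w 2 = 1 ∧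
    ∃ σ ∈ H, σ ≠ 1 ∧ ∀ x : K, w x ≤ 1 → w (σ x - x) < 1

/-- C3: decomposition groups -/
def S_C3 : Prop := ∀ (F K : Type) [Field F] [Field K] [Algebra F K] [IsGalois F K], (2 : K) ≠ 0 →
    (∀ x : K, ∃ y, y ^ 2 = x) → Pro2 (K ≃ₐ[F] K) → ∀ H : Subgroup (K ≃ₐ[F] K),
    IsClosed (H : Set (K ≃ₐ[F] K)) → TDec H →
    (∀ x : K, Fx H x → x ≠ 0 → ∃ (f : Fˣ) (e : K), Fx H e ∧ e ≠ 0 ∧ x = algebraMap F K f * e ^ 2) →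
    ∃ O : ValuationSubring F, Adm 2 (pwG F 2) O ∧
      ∀ f ∈ near O (pwG F 2), ∃ e : K, Fx H e ∧ e ^ 2 = algebraMap F K f

/-- C4: groups isomorphic to `ℤ_2` -/
def S_C4 : Prop := ∀ (F K : Type) [Field F] [Field K] [Algebra F K] [IsGalois F K], (2 : K) ≠ 0 →
    (∀ x : K, ∃ y, y ^ 2 = x) → ∀ H : Subgroup (K ≃ₐ[F] K),
    IsClosed (H : Set (K ≃ₐ[F] K)) → Nonempty (H ≃ₜ* Multiplicative (PadicInt 2)) →
    ∀ α β : K, α ≠ 0 → β ≠ 0 → Fx H (α ^ 2) → Fx H (β ^ 2) →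
    ∃ r t : K, Fx H r ∧ Fx H t ∧ β ^ 2 = r ^ 2 - α ^ 2 * t ^ 2

end Pool.Agent.V7H55.FP
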