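import Mathlib
import Pool.Agent.V7H55.ET2.Rcl
import Pool.Agent.V7H55.FP.TDec

set_option autoImplicit false

/-!
# Local groups and their Galois groups, `p = 2`
-/

open IntermediateField

namespace Pool.Agent.V7H55.FP

open Pool.Agent.V7H55.ET Pool.Agent.V7H55.ET2
open Pool.Agent.Y469.EP (Tw)
open Pool.Agent.Y920.EP (pwG nmG)
open Pool.Agent.Results.MP_600e55_nt.SymbolPartitions (powers IsMaximalPExtension
  IsDecompositionGroup ConclusionOfQ1 IsFreeProduct)

/-- Steinberg symbols vanish on norms -/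
lemma sym_norm {E : Type} [Field E] {T : Subgroup Eˣ} {c : Eˣ → Eˣ → ZMod 2} (hc : c ∈ Sym 2 T)
    {x y : Eˣ} {u v : E} (h : (y : E) = u ^ 2 - x * v ^ 2) : c x y = 0 := by
  have hfact : Fact (Nat.Prime 2) := ⟨Nat.prime_two⟩
  have hl : ∀ a b x : Eˣ, c (a * b) x = c a x + c b x := hc.1
  have hr : ∀ x a b : Eˣ, c x (a * b) = c x a + c x b := hc.2.1
  have h2 : ∀ a : ZMod 2, a + a = 0 := fun a => CharTwo.add_self_eq_zero a
  have hinv : ∀ a b : Eˣ, c a (b⁻¹ * b⁻¹) = 0 := fun a b => by rw [hr, h2]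
  by_cases hv : v = 0
  · subst hv
    have hu : u ≠ 0 := by
      rintro rfl
      apply y.ne_zero
      rw [h]
      ring
    have e : y = Units.mk0 u hu * Units.mk0 u hu := by
      apply Units.ext
      rw [h, Units.val_mul, Units.val_mk0]
      ring
    rw [e, hr, h2]
  · by_cases hu : u = 0
    · subst hu
      have e : y = -x * (Units.mk0 v hv * Units.mk0 v hv) := by
        apply Units.ext
        rw [h, Units.val_mul, Units.val_mul, Units.val_mk0, Units.val_neg]
        ring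
      rw [e, hr, hr, h2, neg_right hc, add_zero]
    · set u' := Units.mk0 u hu with hu'
      set v' := Units.mk0 v hv with hv'
      have h3 : c (x * (v' * v') * (u'⁻¹ * u'⁻¹)) (y * (u'⁻¹ * u'⁻¹)) = 0 := by
        apply hc.2.2.1
        simp only [Units.val_mul, Units.val_inv_eq_inv_val, hu', hv', Units.val_mk0]
        rw [h]
        field_simp
        ring
      rw [hl, hl, hl v' v', h2, add_zero, hl u'⁻¹ u'⁻¹, h2, add_zero, hr, hinv, add_zero] at h3
      exact h3

/-- the Galois group of the maximal 2-extension -/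
theorem pro2_of {F : Type} [Field F] {K : IntermediateField F (AlgebraicClosure F)}
    [IsGalois F K] (hL : ∀ x : K, ∃ L : IntermediateField F K, x ∈ L ∧ Tw 2 L) :
    Pro2 (↥K ≃ₐ[F] ↥K) := by
  intro V hV hVo
  have h1 : (V : Set (↥K ≃ₐ[F] ↥K)) ∈ nhds 1 := hVo.mem_nhds V.one_mem
  rw [krullTopology_mem_nhds_one_iff] at h1
  obtain ⟨L, hLfd, hLV⟩ := h1
  have := hLfd
  obtain ⟨α, hα⟩ := Field.exists_primitive_element F L
  obtain ⟨M, hαM, hMfd, hMgal, k, hk⟩ := hL (α : K)
  have := hMfd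
  have := hMgal
  have hLM : L ≤ M := by
    intro x hx
    have h2 : (⟨x, hx⟩ : L) ∈ (⊤ : IntermediateField F L) := trivial
    rw [← hα] at h2
    have h3 : F⟮α⟯ ≤ M.comap L.val := by
      rw [IntermediateField.adjoin_simple_le_iff]
      exact hαM
    exact h3 h2
  have h3 : M.fixingSubgroup ≤ V := fun g hg => hLV (IntermediateField.fixingSubgroup_le hLM hg)
  have h4 := Subgroup.index_dvd_of_le h3
  rw [← Pool.Agent.Y469.EP.finrank_eq_index, hk] at h4
  obtain ⟨j, -, hj⟩ := (Nat.dvd_prime_pow Nat.prime_two).1 h4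
  exact ⟨j, hj⟩

/-- the properties of the subgroup `D` which belongs to the local group `B` -/
structure Loc {F : Type} [Field F] {K : IntermediateField F (AlgebraicClosure F)}
    (B : Subgroup Fˣ) (D : Subgroup (↥K ≃ₐ[F] ↥K)) : Prop where
  closed : IsClosed (D : Set (↥K ≃ₐ[F] ↥K))
  type : TDec D ∨ Nat.card D = 2
  rng : ∀ x : K, Fx D x → x ≠ 0 → ∃ (f : Fˣ) (e : K), Fx D e ∧ e ≠ 0 ∧
    x = algebraMap F K f * e ^ 2
  ker : ∀ f : Fˣ, (∃ e : K, Fx D e ∧ e ^ 2 = algebraMap F K f) ↔ f ∈ B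
  sym : ∀ d ∈ Sym 2 B, ∀ a b : Fˣ, (∃ r t : K, Fx D r ∧ Fx D t ∧
    algebraMap F K b = r ^ 2 - algebraMap F K a * t ^ 2) → d a b = 0

theorem loc_of {F : Type} [Field F] {K : IntermediateField F (AlgebraicClosure F)}
    {B : Subgroup Fˣ} {D : Subgroup (↥K ≃ₐ[F] ↥K)} (hcl : IsClosed (D : Set (↥K ≃ₐ[F] ↥K)))
    (hty : TDec D ∨ Nat.card D = 2)
    (h1 : (Units.map (algebraMap F (fixedField D) : F →* fixedField D)).range ⊔
        powers (fixedField D) 2 = ⊤)
    (h2 : (powers (fixedField D) 2).comap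
      (Units.map (algebraMap F (fixedField D) : F →* fixedField D)) = B)
    (h3 : Set.BijOn (restr (p := 2) (fixedField D)) {c | c ∈ Sym 2 (powers (fixedField D) 2)}
        {c | c ∈ Sym 2 B}) : Loc B D := by
  have hmem : ∀ x : K, Fx D x ↔ x ∈ fixedField D := by
    intro x
    exact ⟨fun h g => h g.1 g.2, fun h g hg => h ⟨g, hg⟩⟩
  refine ⟨hcl, hty, ?_, ?_, ?_⟩
  · intro x hx hx0
    have hxE : x ∈ fixedField D := (hmem x).1 hx
    set u : (fixedField D)ˣ := Units.mk0 ⟨x, hxE⟩ (fun h => hx0 (congrArg Subtype.val h)) with hu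
    have h4 : u ∈ (Units.map (algebraMap F (fixedField D) : F →* fixedField D)).range ⊔
        powers (fixedField D) 2 := h1 ▸ Subgroup.mem_top u
    obtain ⟨a, ⟨f, rfl⟩, b, ⟨e, rfl⟩, hab⟩ := Subgroup.mem_sup.1 h4
    refine ⟨f, ((e : fixedField D) : K), (hmem _).2 (e : fixedField D).2, ?_, ?_⟩
    · intro h
      exact e.ne_zero (Subtype.ext h)
    · have h5 := congrArg (fun u : (fixedField D)ˣ => ((u : fixedField D) : K)) hab
      exact h5.symm
  · intro f
    rw [← h2, Subgroup.mem_comap]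
    constructor
    · rintro ⟨e, he, hef⟩
      have heE : e ∈ fixedField D := (hmem e).1 he
      have he0 : e ≠ 0 := by
        rintro rfl
        apply f.ne_zero
        apply (algebraMap F K).injective
        rw [← hef, map_zero]
        ring
      refine ⟨Units.mk0 ⟨e, heE⟩ (fun h => he0 (congrArg Subtype.val h)), ?_⟩
      apply Units.ext
      apply Subtype.ext
      exact hef
    · rintro ⟨e, he⟩
      have h5 := congrArg (fun u : (fixedField D)ˣ => ((u : fixedField D) : K)) he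
      exact ⟨((e : fixedField D) : K), (hmem _).2 (e : fixedField D).2, h5⟩
  · rintro d hd a b ⟨r, t, hr, ht, e⟩
    obtain ⟨c, hc, rfl⟩ := h3.surjOn hd
    have hrE : r ∈ fixedField D := (hmem r).1 hr
    have htE : t ∈ fixedField D := (hmem t).1 ht
    refine sym_norm (u := (⟨r, hrE⟩ : fixedField D)) (v := ⟨t, htE⟩) hc ?_
    apply Subtype.ext
    exact e

theorem exists_loc {F : Type} [Field F] {ζ : F} (hζ : IsPrimitiveRoot ζ 2)
    {B : Subgroup Fˣ} (hB : B ∈ MG F 2)
    (K : IntermediateField F (AlgebraicClosure F)) (hK : IsMaximalPExtension 2 K) :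
    ∃ D : Subgroup (↥K ≃ₐ[F] ↥K), Loc B D := by
  have hfact : Fact (Nat.Prime 2) := ⟨Nat.prime_two⟩
  rcases hB.1 with ⟨O, hO, hOB⟩ | ⟨-, hcone⟩
  · subst hOB
    obtain ⟨D, h1, h2, h3, h4, h5⟩ := dec_fullT ⟨ζ, hζ⟩ hO.inv_mem hO.ne_top K hK
    exact ⟨D, loc_of h1 (Or.inl h2.two) h3 h4 h5⟩
  · obtain ⟨D, h1, h2, E, h3, h4, h5, h6⟩ := cone_dec hcone K hK
    subst h3
    exact ⟨D, loc_of h1 (Or.inr h2) h4 h5 h6⟩

end Pool.Agent.V7H55.FP
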