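import Mathlib
import Pool.Agent.V7H55.FP.Base

set_option autoImplicit false

/-!
# Free products, `p = 2`
-/

open IntermediateField

namespace Pool.Agent.V7H55.FP

open Pool.Agent.V7H55.ET Pool.Agent.V7H55.ET2
open Pool.Agent.Y469.EP (Tw)
open Pool.Agent.Y920.EP (pwG nmG)
open Pool.Agent.Results.MP_600e55_nt.SymbolPartitions (powers IsMaximalPExtension
  IsDecompositionGroup ConclusionOfQ1 IsFreeProduct)

section

variable {F : Type} [Field F]

/-- approximation modulo independent groups -/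
lemma surj_of {ζ : F} (hζ : IsPrimitiveRoot ζ 2) (hfin : (pwG F 2).index ≠ 0) {n : ℕ}
    {B : Fin n → Subgroup Fˣ} (hB : ∀ i, B i ∈ MG F 2) (hidx : ∀ i, (B i).index ≠ 2 ∨ -1 ∉ B i)
    (hinj : Function.Injective B) (f : Fin n → Fˣ) : ∃ g : Fˣ, ∀ i, g⁻¹ * f i ∈ B i := by
  have h1 : ∀ i, ∃ v ∈ perp 2 (B i), v⁻¹ * f i ∈ B i := by
    intro i
    have h2 : f i ∈ B i ⊔ perp 2 (B i) := by
      rw [MG.sup_perp Nat.prime_two hζ hfin (hB i)]
      trivial
    obtain ⟨b, hb, v, hv, e⟩ := Subgroup.mem_sup.1 h2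
    refine ⟨v, hv, ?_⟩
    rw [← e, mul_comm b v, inv_mul_cancel_left]
    exact hb
  choose v hv hvf using h1
  refine ⟨∏ j, v j, fun i => ?_⟩
  have h3 : (∏ j, v j) = v i * ∏ j ∈ Finset.univ.erase i, v j := by
    rw [Finset.mul_prod_erase _ _ (Finset.mem_univ i)]
  have h4 : ∏ j ∈ Finset.univ.erase i, v j ∈ B i := by
    refine Subgroup.prod_mem _ fun j hj => ?_
    have hne : B j ≠ B i := fun h => (Finset.ne_of_mem_erase hj) (hinj h)
    exact MG.perp_le Nat.prime_two hζ (hB i) (hB j) hne (hidx i) (hv j)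
  rw [h3, mul_inv, mul_comm (v i)⁻¹, mul_assoc]
  exact mul_mem (inv_mem h4) (hvf i)

variable {K : IntermediateField F (AlgebraicClosure F)}

lemma fx_top_iff [IsGalois F K] {x : K} :
    Fx (⊤ : Subgroup (↥K ≃ₐ[F] ↥K)) x ↔ ∃ a : F, algebraMap F K a = x := by
  constructor
  · intro h
    have h1 : x ∈ (⊥ : IntermediateField F K) :=
      (InfiniteGalois.mem_bot_iff_fixed x).2 fun f => h f trivial
    exact IntermediateField.mem_bot.1 h1
  · rintro ⟨a, rfl⟩ g -
    exact g.commutes a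

lemma fx_top_unit [IsGalois F K] {x : K} (hx : Fx (⊤ : Subgroup (↥K ≃ₐ[F] ↥K)) x) (hx0 : x ≠ 0) :
    ∃ a : Fˣ, algebraMap F K a = x := by
  obtain ⟨a, ha⟩ := fx_top_iff.1 hx
  have ha0 : a ≠ 0 := by
    rintro rfl
    apply hx0
    rw [← ha, map_zero]
  exact ⟨Units.mk0 a ha0, ha⟩

theorem ax_base (hBA : S_BA) (hSEP : S_SEP) [IsGalois F K] (h2K : (2 : K) ≠ 0)
    (hcl : ∀ x : K, ∃ y, y ^ 2 = x)
    {ζ : F} (hζ : IsPrimitiveRoot ζ 2) (hfin : (pwG F 2).index ≠ 0) (s : Finset (Subgroup Fˣ))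
    (hs : ∀ B, B ∈ s ↔ B ∈ MG F 2) (hT : ∀ e ∈ Sym 2 (pwG F 2 ⊔ ⨆ B ∈ s, perp 2 B), e = 0)
    {n : ℕ} {B : Fin n → Subgroup Fˣ} (hB : ∀ i, B i ∈ MG F 2)
    (hidx : ∀ i, (B i).index ≠ 2 ∨ -1 ∉ B i) (hinj : Function.Injective B)
    (hex : ∀ B' ∈ MG F 2, B'.index ≠ 2 ∨ -1 ∉ B' → ∃ i, B i = B')
    {D : Fin n → Subgroup (↥K ≃ₐ[F] ↥K)} (hD : ∀ i, Loc (B i) (D i)) :
    Ax K (Σ i : Fin n, (↥K ≃ₐ[F] ↥K) ⧸ D i) (⊤ : Subgroup (↥K ≃ₐ[F] ↥K)) := by
  have hfact : Fact (Nat.Prime 2) := ⟨Nat.prime_two⟩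
  apply hBA
  · intro x y hx hy hx0 hy0 hloc
    obtain ⟨a, rfl⟩ := fx_top_unit hx hx0
    obtain ⟨b, rfl⟩ := fx_top_unit hy hy0
    by_contra hcon
    have hno : ¬ ∃ r t : F, (b : F) = r ^ 2 - a * t ^ 2 := by
      rintro ⟨r, t, e⟩
      apply hcon
      refine ⟨algebraMap F K r, algebraMap F K t, fx_top_iff.2 ⟨r, rfl⟩, fx_top_iff.2 ⟨t, rfl⟩, ?_⟩
      rw [e, map_sub, map_mul, map_pow, map_pow]
    obtain ⟨c, hc1, hc2, hc3, hcab⟩ := hSEP F K h2K hcl a b hno
    have hcN : c ∈ NSym 2 F := by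
      refine ⟨hc1, hc2, fun x _ y hy => ?_⟩
      exact hc3 x y (mem_nm2.1 hy)
    obtain ⟨d, hd1, hd2⟩ := split_all' hζ hfin s hs hcN
    have h3 := hT _ hd2
    rw [sub_eq_zero] at h3
    apply hcab
    rw [h3, Finset.sum_apply, Finset.sum_apply]
    refine Finset.sum_eq_zero fun B' hB' => ?_
    by_cases hi : B'.index ≠ 2 ∨ -1 ∉ B'
    · obtain ⟨i, rfl⟩ := hex B' ((hs B').1 hB') hi
      exact (hD i).sym _ (hd1 _ hB') a b (hloc i)
    · push Not at hi
      rw [Sym_index_p (LG.pw_le ((hs B').1 hB').1) hi.1 hi.2 (hd1 _ hB')]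
      rfl
  · intro z hz
    have h1 := fun i => (hD i).rng (z i) (hz i).1 (hz i).2
    choose f e he he0 hfe using h1
    obtain ⟨g, hg⟩ := surj_of hζ hfin hB hidx hinj f
    refine ⟨algebraMap F K g, fx_top_iff.2 ⟨g, rfl⟩, (map_ne_zero _).2 g.ne_zero, fun i => ?_⟩
    obtain ⟨q, hq, hqe⟩ := ((hD i).ker _).2 (hg i)
    have hgK : algebraMap F K g ≠ 0 := (map_ne_zero _).2 g.ne_zero
    have hfK : algebraMap F K (f i) ≠ 0 := (map_ne_zero _).2 (f i).ne_zero
    rw [Units.val_mul, Units.val_inv_eq_inv_val, map_mul, map_inv₀] at hqe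
    refine ⟨q * e i, fun u hu => by rw [smul_mul', hq u hu, he i u hu], ?_, ?_⟩
    · refine mul_ne_zero ?_ (he0 i)
      rintro rfl
      have : (0 : K) = (algebraMap F K g)⁻¹ * algebraMap F K (f i) := by rw [← hqe]; ring
      exact mul_ne_zero (inv_ne_zero hgK) hfK this.symm
    · rw [hfe i, mul_pow, hqe]
      field_simp

/-- the characters of `√δ` and `√γ` agree if they differ by a fixed element -/
lemma sg_congr {G L : Type} [Group G] [Field L] [MulSemiringAction G L] {γ δ q : L}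
    (hq0 : q ≠ 0) {g : G} (hq : g • q = q) (h : γ ^ 2 = (δ * q) ^ 2) : sg δ g = sg γ g := by
  have h1 : γ = δ * q ∨ γ = -(δ * q) := sq_eq_sq_iff_eq_or_eq_neg.1 h
  have h2 : g • γ = γ ↔ g • δ = δ := by
    rcases h1 with h1 | h1
    · rw [h1, smul_mul', hq]
      exact ⟨fun h => mul_right_cancel₀ hq0 h, fun h => by rw [h]⟩
    · rw [h1, smul_neg, smul_mul', hq, neg_inj]
      exact ⟨fun h => mul_right_cancel₀ hq0 h, fun h => by rw [h]⟩
  unfold sg
  by_cases hc : g • δ = δ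
  · rw [if_pos hc, if_pos (h2.2 hc)]
  · rw [if_neg hc, if_neg (fun h => hc (h2.1 h))]

/-- **Free products.** -/
theorem fp_main (hBA : S_BA) (hSEP : S_SEP) (hKD : S_KD) (hLA : S_LA) (hAS : S_AS) (hZP : S_ZP)
    (hFR2 : S_FR2) (hFR3 : S_FR3)
    {ζ : F} (hζ : IsPrimitiveRoot ζ 2) (hfin : (pwG F 2).index ≠ 0) (s : Finset (Subgroup Fˣ))
    (hs : ∀ B, B ∈ s ↔ B ∈ MG F 2) (hT : ∀ e ∈ Sym 2 (pwG F 2 ⊔ ⨆ B ∈ s, perp 2 B), e = 0)
    (hK : IsMaximalPExtension 2 K) :
    ∃ (m : ℕ) (H : Fin m → Subgroup (↥K ≃ₐ[F] ↥K)),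
      (∀ i, IsClosed (H i : Set (↥K ≃ₐ[F] ↥K))) ∧ IsFreeProduct 2 H ∧
      ∀ i, Nonempty (H i ≃ₜ* Multiplicative (PadicInt 2)) ∨
        ∃ B ∈ MG F 2, Loc B (H i) := by
  classical
  have hfact : Fact (Nat.Prime 2) := ⟨Nat.prime_two⟩
  have hp : Nat.Prime 2 := Nat.prime_two
  obtain ⟨hgal, hL, -⟩ := Pool.Agent.Y469.EP.t_MAX' 2 hp F ⟨_, hζ⟩ K hK
  have hcl := closed_root hp hζ K hK
  have h2F : (2 : F) ≠ 0 := by
    have : NeZero 2 := ⟨two_ne_zero⟩
    exact_mod_cast hζ.neZero'.ne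
  have h2K : (2 : K) ≠ 0 := by
    intro h
    apply h2F
    apply (algebraMap F K).injective
    rw [map_ofNat, h, map_zero]
  have hpro : Pro2 (↥K ≃ₐ[F] ↥K) := pro2_of hL
  -- the relevant local groups
  set N : Finset (Subgroup Fˣ) := s.filter fun B => B.index ≠ 2 ∨ -1 ∉ B with hN
  set n := N.card with hn
  set B : Fin n → Subgroup Fˣ := fun i => (N.equivFin.symm i).1 with hBdef
  have hBN : ∀ i, B i ∈ N := fun i => (N.equivFin.symm i).2
  have hB : ∀ i, B i ∈ MG F 2 := fun i => (hs _).1 (Finset.mem_filter.1 (hBN i)).1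
  have hidx : ∀ i, (B i).index ≠ 2 ∨ -1 ∉ B i := fun i => (Finset.mem_filter.1 (hBN i)).2
  have hinj : Function.Injective B := by
    intro i j h
    exact N.equivFin.symm.injective (Subtype.ext h)
  have hex : ∀ B' ∈ MG F 2, B'.index ≠ 2 ∨ -1 ∉ B' → ∃ i, B i = B' := by
    intro B' h1 h3
    have h4 : B' ∈ N := Finset.mem_filter.2 ⟨(hs _).2 h1, h3⟩
    refine ⟨N.equivFin ⟨B', h4⟩, ?_⟩
    simp [hBdef]
  have hloc := fun i => exists_loc hζ (hB i) K hK
  choose D hD using hloc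
  have hAx := ax_base hBA hSEP h2K hcl hζ hfin s hs hT hB hidx hinj hex hD
  -- the free part
  obtain ⟨r, v, χ, hv, hχ, hχQ, hχv, hχR, hχ1⟩ := hLA Fˣ (pwG F 2) (⨅ i, B i)
    (fun x => ⟨x, rfl⟩) (le_iInf fun i => LG.pw_le (hB i).1) hfin (-1)
  have hσ := fun j => hKD F K h2K hcl hfin (χ j) (hχ j)
  choose σ hσ using hσ
  have hvi : ∀ j i, v j ∈ B i := fun j i => (iInf_le B i) (hv j)
  have hX : ∀ γ : Fin n → K, (∀ i, γ i ≠ 0 ∧ Fx (D i) (γ i ^ 2)) → ∀ ε : Fin r → ZMod 2,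
      ∃ δ : K, δ ≠ 0 ∧ Fx (⊤ : Subgroup (↥K ≃ₐ[F] ↥K)) (δ ^ 2) ∧
        (∀ i, ∀ d ∈ D i, sg δ d = sg (γ i) d) ∧ ∀ j, sg δ (σ j) = ε j := by
    intro γ hγ ε
    have h1 := fun i => (hD i).rng (γ i ^ 2) (hγ i).2 (pow_ne_zero 2 (hγ i).1)
    choose f e he he0 hfe using h1
    obtain ⟨g, hg⟩ := surj_of hζ hfin hB hidx hinj f
    set z : Fˣ := g * ∏ l, v l ^ (ε l - χ l g).val with hz
    have hχpow : ∀ j (x : Fˣ) (k : ℕ), χ j (x ^ k) = k * χ j x := by
      intro j x k
      induction k with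
      | zero =>
        have h3 : χ j (1 * 1) = χ j 1 + χ j 1 := hχ j 1 1
        rw [mul_one] at h3
        have h4 : χ j 1 = 0 := by simpa using h3
        rw [pow_zero, h4, Nat.cast_zero, zero_mul]
      | succ k ih =>
        rw [pow_succ, hχ, ih]
        push_cast
        ring
    have hχprod : ∀ j (t : Finset (Fin r)) (w : Fin r → Fˣ),
        χ j (∏ l ∈ t, w l) = ∑ l ∈ t, χ j (w l) := by
      intro j t w
      induction t using Finset.induction_on with
      | empty =>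
        have h3 : χ j (1 * 1) = χ j 1 + χ j 1 := hχ j 1 1
        rw [mul_one] at h3
        have h4 : χ j 1 = 0 := by simpa using h3
        rw [Finset.prod_empty, Finset.sum_empty, h4]
      | insert a t ha ih => rw [Finset.prod_insert ha, Finset.sum_insert ha, hχ, ih]
    have hχz : ∀ j, χ j z = ε j := by
      intro j
      rw [hz, hχ, hχprod]
      have h3 : ∑ l, χ j (v l ^ (ε l - χ l g).val) = ε j - χ j g := by
        rw [Finset.sum_eq_single j]
        · rw [hχpow, hχv, if_pos rfl, ZMod.natCast_val, ZMod.cast_id', id, mul_one]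
        · intro l _ hl
          rw [hχpow, hχv, if_neg (Ne.symm hl), mul_zero]
        · intro h
          exact absurd (Finset.mem_univ j) h
      rw [h3]
      ring
    obtain ⟨δ, hδ⟩ := hcl (algebraMap F K z)
    have hzK : algebraMap F K z ≠ 0 := (map_ne_zero _).2 z.ne_zero
    have hδ0 : δ ≠ 0 := by
      rintro rfl
      apply hzK
      rw [← hδ]
      ring
    refine ⟨δ, hδ0, ?_, ?_, ?_⟩
    · rw [hδ]
      exact fx_top_iff.2 ⟨z, rfl⟩
    · intro i d hd
      have hzi : z⁻¹ * f i ∈ B i := by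
        rw [hz, mul_inv, mul_comm g⁻¹, mul_assoc]
        exact mul_mem (inv_mem (Subgroup.prod_mem _ fun l _ => pow_mem (hvi l i) _)) (hg i)
      obtain ⟨q, hq, hqe⟩ := ((hD i).ker _).2 hzi
      rw [Units.val_mul, Units.val_inv_eq_inv_val, map_mul, map_inv₀] at hqe
      have hfK : algebraMap F K (f i) ≠ 0 := (map_ne_zero _).2 (f i).ne_zero
      have hq0 : q ≠ 0 := by
        rintro rfl
        have : (0 : K) = (algebraMap F K z)⁻¹ * algebraMap F K (f i) := by rw [← hqe]; ring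
        exact mul_ne_zero (inv_ne_zero hzK) hfK this.symm
      refine sg_congr (q := q * e i) (mul_ne_zero hq0 (he0 i)) ?_ ?_
      · rw [smul_mul', hq d hd, he i d hd]
      · rw [hfe i, mul_pow, mul_pow, hδ, hqe]
        field_simp
    · intro j
      rw [hσ j z δ hδ, hχz]
  have hgen : ∀ y : K, Fx (⊤ : Subgroup (↥K ≃ₐ[F] ↥K)) (y ^ 2) → (∀ i, Fx (D i) y) →
      (∀ j, σ j • y = y) → Fx (⊤ : Subgroup (↥K ≃ₐ[F] ↥K)) y := by
    intro y hy hyD hyσ
    by_cases hy0 : y = 0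
    · subst hy0
      intro u _
      exact smul_zero u
    obtain ⟨a, ha⟩ := fx_top_unit hy (pow_ne_zero 2 hy0)
    have h1 : a ∈ ⨅ i, B i := by
      rw [Subgroup.mem_iInf]
      intro i
      exact ((hD i).ker a).1 ⟨y, hyD i, ha.symm⟩
    have h3 : a ∈ pwG F 2 := by
      refine hχR a h1 fun j => ?_
      rw [← hσ j a y ha.symm]
      unfold sg
      rw [if_pos (hyσ j)]
    obtain ⟨b, hb⟩ := h3
    have h4 : y ^ 2 = (algebraMap F K b) ^ 2 := by
      rw [← ha, ← map_pow]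
      congr 1
      have := congrArg (fun u : Fˣ => (u : F)) hb
      exact this.symm
    rcases sq_eq_sq_iff_eq_or_eq_neg.1 h4 with h5 | h5
    · rw [h5]
      exact fx_top_iff.2 ⟨b, rfl⟩
    · rw [h5, ← map_neg]
      exact fx_top_iff.2 ⟨_, rfl⟩
  have hfree := hFR2 F K h2K hcl hpro n D (fun i => (hD i).closed) hAx r σ hX hgen
  set H : Fin (n + r) → Subgroup (↥K ≃ₐ[F] ↥K) :=
    Fin.append D fun j => (Subgroup.zpowers (σ j)).topologicalClosure with hH
  have hH1 : ∀ i, H (Fin.castAdd r i) = D i := fun i => Fin.append_left _ _ i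
  have hH2 : ∀ j, H (Fin.natAdd n j) = (Subgroup.zpowers (σ j)).topologicalClosure :=
    fun j => Fin.append_right _ _ j
  refine ⟨n + r, H, ?_, ?_, ?_⟩
  · intro i
    refine Fin.addCases (fun i => ?_) (fun j => ?_) i
    · rw [hH1]
      exact (hD i).closed
    · rw [hH2]
      exact Subgroup.isClosed_topologicalClosure _
  · exact hFR3 _ n r D σ hfree H hH1 hH2
  · intro i
    refine Fin.addCases (fun i => ?_) (fun j => ?_) i
    · right
      rw [hH1]
      exact ⟨B i, hB i, hD i⟩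
    · left
      rw [hH2]
      apply hZP F K hpro
      intro m hm hσm
      have hσ1 : σ j ≠ 1 := by
        intro h
        obtain ⟨y, hy⟩ := hcl (algebraMap F K (v j))
        have h1 := hσ j (v j) y hy
        rw [h, hχv, if_pos rfl] at h1
        unfold sg at h1
        rw [if_pos (one_smul _ y)] at h1
        exact absurd h1 (by decide)
      obtain ⟨o1, o2, ho⟩ := hAS F K h2K hcl hpro (σ j) hσ1 m hm hσm
      -- the cone
      let P : Subgroup Fˣ :=
        { carrier := {x | (0 : F) < x}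
          mul_mem' := fun {a b} ha hb => by
            change (0 : F) < ((a * b : Fˣ) : F)
            rw [Units.val_mul]
            exact mul_pos ha hb
          one_mem' := by
            change (0 : F) < ((1 : Fˣ) : F)
            rw [Units.val_one]
            exact zero_lt_one
          inv_mem' := fun {a} ha => by
            change (0 : F) < ((a⁻¹ : Fˣ) : F)
            rw [Units.val_inv_eq_inv_val]
            exact inv_pos.2 ha }
      have hP : IsCone P := ⟨o1, o2, fun x => Iff.rfl⟩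
      have hχP : ∀ x : Fˣ, x ∈ P ↔ χ j x = 0 := by
        intro x
        change (0 : F) < x ↔ _
        rw [← ho x]
        obtain ⟨y, hy⟩ := hcl (algebraMap F K x)
        rw [← hσ j x y hy]
        unfold sg
        constructor
        · rintro ⟨y', hy', hσy'⟩
          rcases sq_eq_sq_iff_eq_or_eq_neg.1 (hy.trans hy'.symm) with h5 | h5
          · rw [if_pos]
            rw [h5]
            exact hσy'
          · rw [if_pos]
            rw [h5, smul_neg]
            exact congrArg Neg.neg hσy'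
        · intro h
          refine ⟨y, hy, ?_⟩
          by_contra hc
          have hc' : ¬ (σ j • y = y) := hc
          rw [if_neg hc'] at h
          exact one_ne_zero h
      have hneg : (-1 : Fˣ) ∉ P := by
        intro h
        have h1 : (0 : F) < ((-1 : Fˣ) : F) := h
        rw [Units.val_neg, Units.val_one] at h1
        linarith
      obtain ⟨B', hB', hle⟩ := exists_MG hfin (Or.inr ⟨rfl, hP⟩ : P ∈ LG F 2)
      obtain ⟨i, hi⟩ := hex B' hB' (Or.inr fun h => hneg (hle h))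
      have h1 : (-1 : Fˣ) ∈ ⨅ i, B i := by
        by_contra hc
        exact hneg ((hχP _).2 (hχ1 hc j))
      apply hneg
      apply hle
      rw [← hi]
      exact (iInf_le B i) h1

end

end Pool.Agent.V7H55.FP
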