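import Mathlib
import Pool.Agent.V7H55.FP.Main
import Pool.Agent.V7H55.FP.Defs4

set_option autoImplicit false

/-!
# Free products, `p = 2`: the converse
-/

open IntermediateField

namespace Pool.Agent.V7H55.FP

open Pool.Agent.V7H55.ET Pool.Agent.V7H55.ET2
open Pool.Agent.Y469.EP (Tw)
open Pool.Agent.Y920.EP (pwG nmG)
open Pool.Agent.Results.MP_600e55_nt.SymbolPartitions (powers IsMaximalPExtension
  IsDecompositionGroup ConclusionOfQ1 IsFreeProduct)

section

variable {F : Type} [Field F] {K : IntermediateField F (AlgebraicClosure F)}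

/-- local norms -/
def LN (H : Subgroup (↥K ≃ₐ[F] ↥K)) (a b : K) : Prop :=
  ∃ r t : K, Fx H r ∧ Fx H t ∧ b = r ^ 2 - a * t ^ 2

lemma LN_right {H : Subgroup (↥K ≃ₐ[F] ↥K)} {a b e : K} (he : Fx H e) (h : e ^ 2 = b) :
    LN H a b := ⟨e, 0, he, fun u _ => smul_zero u, by rw [← h]; ring⟩

lemma LN_left (h2 : (2 : K) ≠ 0) {H : Subgroup (↥K ≃ₐ[F] ↥K)} {a b e : K} (he : Fx H e)
    (he0 : e ≠ 0) (h : e ^ 2 = a) (hb : Fx H b) : LN H a b := by
  have h2f : ∀ u : (↥K ≃ₐ[F] ↥K), u • (2 : K) = 2 := fun u => by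
    rw [show (2 : K) = 1 + 1 by norm_num, smul_add, smul_one]
  refine ⟨(1 + b) / 2, (b - 1) / (2 * e), fun u hu => ?_, fun u hu => ?_, ?_⟩
  · rw [smul_div₀', smul_add, smul_one, hb u hu, h2f]
  · rw [smul_div₀', smul_sub, smul_one, smul_mul', hb u hu, h2f, he u hu]
  · rw [← h]
    field_simp
    ring

lemma fx_alg {H : Subgroup (↥K ≃ₐ[F] ↥K)} (a : F) : Fx H (algebraMap F K a) :=
  fun g _ => g.commutes a

/-- quotients of elements with the same character are fixed -/
lemma fx_div {H : Subgroup (↥K ≃ₐ[F] ↥K)} {γ δ : K}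
    (hγ : Fx H (γ ^ 2)) (hδ : Fx H (δ ^ 2)) (h : ∀ d ∈ H, sg δ d = sg γ d) : Fx H (γ / δ) := by
  intro d hd
  have h1 : ∀ x : K, Fx H (x ^ 2) → d • x = x ∨ d • x = -x := by
    intro x hx
    have h2 := hx d hd
    rw [smul_pow'] at h2
    exact sq_eq_sq_iff_eq_or_eq_neg.1 h2
  have h3 := h d hd
  unfold sg at h3
  rw [smul_div₀']
  by_cases hc : d • δ = δ
  · rw [if_pos hc] at h3
    by_cases hc' : d • γ = γ
    · rw [hc, hc']
    · rw [if_neg hc'] at h3
      exact absurd h3 zero_ne_one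
  · rw [if_neg hc] at h3
    by_cases hc' : d • γ = γ
    · rw [if_pos hc'] at h3
      exact absurd h3 one_ne_zero
    · rw [(h1 γ hγ).resolve_left hc', (h1 δ hδ).resolve_left hc, neg_div_neg_eq]

theorem conv_main (hC1 : S_C1) (hC3 : S_C3) (hC4 : S_C4) (hAS : S_AS)
    {ζ : F} (hζ : IsPrimitiveRoot ζ 2) (hfin : (pwG F 2).index ≠ 0) {T : Subgroup Fˣ}
    (hTperp : ∀ B ∈ MG F 2, perp 2 B ≤ T) (hK : IsMaximalPExtension 2 K)
    {m : ℕ} (H : Fin m → Subgroup (↥K ≃ₐ[F] ↥K)) (hHcl : ∀ i, IsClosed (H i : Set (↥K ≃ₐ[F] ↥K)))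
    (hfree : FreeP H) (hty : ∀ i, Nonempty (H i ≃ₜ* Multiplicative (PadicInt 2)) ∨ TDec (H i) ∨
      Nat.card (H i) = 2) {c : Fˣ → Fˣ → ZMod 2} (hc : c ∈ Sym 2 T) : c = 0 := by
  classical
  have hfact : Fact (Nat.Prime 2) := ⟨Nat.prime_two⟩
  have hp : Nat.Prime 2 := Nat.prime_two
  obtain ⟨hgal, hL, -⟩ := Pool.Agent.Y469.EP.t_MAX' 2 hp F ⟨_, hζ⟩ K hK
  have hcl := closed_root hp hζ K hK
  have h2F : (2 : F) ≠ 0 := by
    have : NeZero 2 := ⟨two_ne_zero⟩
    exact_mod_cast hζ.neZero'.ne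
  have h2K : (2 : K) ≠ 0 := by
    intro h
    apply h2F
    apply (algebraMap F K).injective
    rw [map_ofNat, h, map_zero]
  have hpro : Pro2 (↥K ≃ₐ[F] ↥K) := pro2_of hL
  obtain ⟨hC1a, hC1b, hC1c⟩ := hC1 F K h2K hcl m H hfree
  have hsqrt : ∀ x : Fˣ, ∃ y : K, y ≠ 0 ∧ y ^ 2 = algebraMap F K x := by
    intro x
    obtain ⟨y, hy⟩ := hcl (algebraMap F K x)
    refine ⟨y, ?_, hy⟩
    rintro rfl
    exact (map_ne_zero (algebraMap F K)).2 x.ne_zero (by rw [← hy]; ring)
  -- elements with a prescribed component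
  have comp1 : ∀ (i : Fin m) (x : K), Fx (H i) x → x ≠ 0 → ∃ f : Fˣ,
      (∃ e : K, Fx (H i) e ∧ e ≠ 0 ∧ x = algebraMap F K f * e ^ 2) ∧
      ∀ l, l ≠ i → ∃ e : K, Fx (H l) e ∧ e ^ 2 = algebraMap F K f := by
    intro i x hx hx0
    obtain ⟨y, hy⟩ := hcl x
    have hy0 : y ≠ 0 := by
      rintro rfl
      apply hx0
      rw [← hy]
      ring
    obtain ⟨δ, hδ0, hδ, hδH⟩ := hC1a (fun l => if l = i then y else 1) (by
      intro l
      by_cases hl : l = i
      · subst hl
        simp only [if_true]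
        exact ⟨hy0, by rw [hy]; exact hx⟩
      · simp only [if_neg hl]
        exact ⟨one_ne_zero, fun u _ => by rw [one_pow, smul_one]⟩)
    obtain ⟨f, hf⟩ := fx_top_unit hδ (pow_ne_zero 2 hδ0)
    have hδ' : ∀ l, Fx (H l) (δ ^ 2) := fun l u _ => hδ u trivial
    refine ⟨f, ⟨y / δ, ?_, div_ne_zero hy0 hδ0, ?_⟩, ?_⟩
    · refine fx_div (by rw [hy]; exact hx) (hδ' i) fun d hd => ?_
      have := hδH i d hd
      simpa using this
    · rw [hf, div_pow, hy]
      field_simp
    · intro l hl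
      refine ⟨δ, fun d hd => ?_, hf.symm⟩
      have h1 := hδH l d hd
      simp only [if_neg hl] at h1
      unfold sg at h1
      rw [if_pos (smul_one d)] at h1
      by_contra hne
      rw [if_neg hne] at h1
      exact one_ne_zero h1
  -- symbols vanish on local norms
  have van : ∀ a b : Fˣ, (∀ i, LN (H i) (algebraMap F K a) (algebraMap F K b)) → c a b = 0 := by
    intro a b h
    obtain ⟨r, t, hr, ht, e⟩ := hC1c (algebraMap F K a) (algebraMap F K b)
      (fx_top_iff.2 ⟨a, rfl⟩) (fx_top_iff.2 ⟨b, rfl⟩) ((map_ne_zero _).2 a.ne_zero)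
      ((map_ne_zero _).2 b.ne_zero) h
    obtain ⟨r', rfl⟩ := fx_top_iff.1 hr
    obtain ⟨t', rfl⟩ := fx_top_iff.1 ht
    refine sym_norm (u := r') (v := t') hc ?_
    apply (algebraMap F K).injective
    rw [e, map_sub, map_mul, map_pow, map_pow]
  -- diagonal terms
  have diag : ∀ (i : Fin m) (x y : Fˣ),
      (∀ l, l ≠ i → ∃ e : K, Fx (H l) e ∧ e ^ 2 = algebraMap F K y) → c x y = 0 := by
    intro i x y hy
    have hB : (∃ B ∈ MG F 2, ∀ b ∈ B, ∃ e : K, Fx (H i) e ∧ e ^ 2 = algebraMap F K b) →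
        c x y = 0 := by
      rintro ⟨B, hB, hBs⟩
      have h1 : x ∈ B ⊔ perp 2 B := by
        rw [MG.sup_perp hp hζ hfin hB]
        trivial
      obtain ⟨b, hb, v, hv, rfl⟩ := Subgroup.mem_sup.1 h1
      rw [hc.1, Sym.van hc (hTperp B hB hv), add_zero]
      apply van
      intro l
      by_cases hl : l = i
      · subst hl
        obtain ⟨e, he, heb⟩ := hBs b hb
        refine LN_left h2K he ?_ heb (fx_alg _)
        rintro rfl
        exact (map_ne_zero (algebraMap F K)).2 b.ne_zero (by rw [← heb]; ring)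
      · obtain ⟨e, he, hey⟩ := hy l hl
        exact LN_right he hey
    rcases hty i with h | h | h
    · -- `ℤ_2`
      obtain ⟨α, hα0, hα⟩ := hsqrt x
      obtain ⟨β, hβ0, hβ⟩ := hsqrt y
      apply van
      intro l
      by_cases hl : l = i
      · subst hl
        obtain ⟨r, t, hr, ht, e⟩ := hC4 F K h2K hcl (H l) (hHcl l) h α β hα0 hβ0
          (by rw [hα]; exact fx_alg _) (by rw [hβ]; exact fx_alg _)
        rw [hα, hβ] at e
        exact ⟨r, t, hr, ht, e⟩
      · obtain ⟨e, he, hey⟩ := hy l hl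
        exact LN_right he hey
    · -- decomposition groups
      obtain ⟨O, hO, hOs⟩ := hC3 F K h2K hcl hpro (H i) (hHcl i) h fun x hx hx0 => by
        obtain ⟨f, h1, -⟩ := comp1 i x hx hx0
        exact ⟨f, h1⟩
      obtain ⟨B, hB', hle⟩ := exists_MG hfin (Or.inl ⟨O, hO, rfl⟩ : near O (pwG F 2) ∈ LG F 2)
      exact hB ⟨B, hB', fun b hb => hOs b (hle hb)⟩
    · -- groups of order two
      obtain ⟨σ, τ, hστ, huniv⟩ := Nat.card_eq_two_iff.1 h
      -- the nontrivial element
      obtain ⟨σ, hσ1, hσall⟩ : ∃ σ : H i, σ ≠ 1 ∧ ∀ g : H i, g = 1 ∨ g = σ := by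
        have hmem : ∀ g : H i, g = σ ∨ g = τ := by
          intro g
          have h1 : g ∈ ({σ, τ} : Set (H i)) := huniv ▸ Set.mem_univ g
          exact h1
        rcases hmem 1 with h1 | h1
        · exact ⟨τ, fun h3 => hστ (h1.symm.trans h3.symm), fun g => by rw [h1]; exact hmem g⟩
        · exact ⟨σ, fun h3 => hστ (h3.trans h1), fun g => by rw [h1]; exact (hmem g).symm⟩
      have hσ2 : σ ^ 2 = 1 := by
        rw [← h]
        exact pow_card_eq_one'
      obtain ⟨o1, o2, ho⟩ := hAS F K h2K hcl hpro (σ : ↥K ≃ₐ[F] ↥K)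
        (fun h => hσ1 (Subtype.ext h)) 2 two_pos (by
          have := congrArg Subtype.val hσ2
          exact this)
      let P : Subgroup Fˣ :=
        { carrier := {x | (0 : F) < x}
          mul_mem' := fun {a b} ha hb => by
            change (0 : F) < ((a * b : Fˣ) : F)
            rw [Units.val_mul]
            exact mul_pos ha hb
          one_mem' := by
            change (0 : F) < ((1 : Fˣ) : F)
            rw [Units.val_one]
            exact zero_lt_one
          inv_mem' := fun {a} ha => by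
            change (0 : F) < ((a⁻¹ : Fˣ) : F)
            rw [Units.val_inv_eq_inv_val]
            exact inv_pos.2 ha }
      have hP : IsCone P := ⟨o1, o2, fun x => Iff.rfl⟩
      obtain ⟨B, hB', hle⟩ := exists_MG hfin (Or.inr ⟨rfl, hP⟩ : P ∈ LG F 2)
      refine hB ⟨B, hB', fun b hb => ?_⟩
      obtain ⟨y, hy, hσy⟩ := (ho b).2 (hle hb)
      refine ⟨y, fun d hd => ?_, hy⟩
      rcases hσall ⟨d, hd⟩ with h1 | h1
      · have h3 : d = 1 := congrArg Subtype.val h1
        rw [h3]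
        exact one_smul _ y
      · have h3 : d = (σ : ↥K ≃ₐ[F] ↥K) := congrArg Subtype.val h1
        rw [h3]
        exact hσy
  -- the expansion
  have hprod : ∀ (t : Finset (Fin m)) (X : Fin m → Fˣ), c (∏ i ∈ t, X i) = ∑ i ∈ t, c (X i) := by
    intro t X
    induction t using Finset.induction_on with
    | empty =>
      rw [Finset.prod_empty, Finset.sum_empty]
      funext y
      exact Sym.van hc (one_mem T) y
    | insert a t ha ih =>
      rw [Finset.prod_insert ha, Finset.sum_insert ha, ← ih]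
      funext y
      exact hc.1 _ _ y
  have comp2 : ∀ x : Fˣ, ∃ X : Fin m → Fˣ, c x = ∑ i, c (X i) ∧
      (∀ i l, l ≠ i → ∃ e : K, Fx (H l) e ∧ e ^ 2 = algebraMap F K (X i)) := by
    intro x
    have h1 := fun i => comp1 i (algebraMap F K x) (fx_alg _) ((map_ne_zero _).2 x.ne_zero)
    choose X hX1 hX2 using h1
    refine ⟨X, ?_, hX2⟩
    obtain ⟨y, hy0, hy⟩ := hsqrt (x * (∏ i, X i)⁻¹)
    have hyH : ∀ l, Fx (H l) y := by
      intro l
      obtain ⟨e, he, he0, hxe⟩ := hX1 l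
      have h3 : ∀ i, ∃ q : K, Fx (H l) q ∧ (i ≠ l → q ^ 2 = algebraMap F K (X i)) := by
        intro i
        by_cases hi : i = l
        · exact ⟨1, fun u _ => smul_one u, fun h => absurd hi h⟩
        · obtain ⟨q, hq, hqe⟩ := hX2 i l (Ne.symm hi)
          exact ⟨q, hq, fun _ => hqe⟩
      choose q hq hqe using h3
      have h4 : algebraMap F K ((x * (∏ i, X i)⁻¹ : Fˣ) : F) =
          (e * (∏ i ∈ Finset.univ.erase l, q i)⁻¹) ^ 2 := by
        have h5 : (∏ i, X i) = X l * ∏ i ∈ Finset.univ.erase l, X i := by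
          rw [Finset.mul_prod_erase _ _ (Finset.mem_univ l)]
        have h6 : (∏ i ∈ Finset.univ.erase l, q i) ^ 2 =
            algebraMap F K ((∏ i ∈ Finset.univ.erase l, X i : Fˣ) : F) := by
          rw [← Finset.prod_pow, Units.coe_prod, map_prod]
          exact Finset.prod_congr rfl fun i hi => hqe i (Finset.ne_of_mem_erase hi)
        have h7 : algebraMap F K (X l) ≠ 0 := (map_ne_zero _).2 (X l).ne_zero
        have h8 : algebraMap F K ((∏ i ∈ Finset.univ.erase l, X i : Fˣ) : F) ≠ 0 :=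
          (map_ne_zero _).2 (Units.ne_zero _)
        rw [h5, mul_pow, inv_pow, h6, Units.val_mul, Units.val_inv_eq_inv_val, Units.val_mul,
          map_mul, map_inv₀, map_mul, hxe]
        field_simp
      have h9 : Fx (H l) (e * (∏ i ∈ Finset.univ.erase l, q i)⁻¹) := by
        have hE : ∀ z : K, Fx (H l) z ↔ z ∈ fixedField (H l) :=
          fun z => ⟨fun h g => h g.1 g.2, fun h g hg => h ⟨g, hg⟩⟩
        rw [hE]
        exact mul_mem ((hE _).1 he) (inv_mem (prod_mem fun i _ => (hE _).1 (hq i)))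
      rcases sq_eq_sq_iff_eq_or_eq_neg.1 (hy.trans h4) with h10 | h10
      · rw [h10]
        exact h9
      · rw [h10]
        intro d hd
        rw [smul_neg, h9 d hd]
    have hyT : Fx (⊤ : Subgroup (↥K ≃ₐ[F] ↥K)) y :=
      hC1b y (by rw [hy]; exact fx_alg _) hyH
    obtain ⟨g, hg⟩ := fx_top_unit hyT hy0
    have h3 : x * (∏ i, X i)⁻¹ = g ^ 2 := by
      apply Units.ext
      apply (algebraMap F K).injective
      rw [← hy, ← hg, ← map_pow]
      rfl
    have h4 : x = g ^ 2 * ∏ i, X i := by rw [← h3, inv_mul_cancel_right]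
    rw [← hprod]
    funext z
    conv_lhs => rw [h4]
    rw [hc.1, pow_two, hc.1, CharTwo.add_self_eq_zero, zero_add]
  funext x y
  obtain ⟨X, hX, hX'⟩ := comp2 x
  obtain ⟨Y, hY, hY'⟩ := comp2 y
  change c x y = 0
  rw [hX, Finset.sum_apply]
  refine Finset.sum_eq_zero fun i _ => ?_
  rw [anti' hc y (X i), hY, Finset.sum_apply, neg_eq_zero]
  refine Finset.sum_eq_zero fun l _ => ?_
  by_cases hil : l = i
  · subst hil
    exact diag l _ _ fun k hk => hX' l k hk
  · apply van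
    intro k
    by_cases hk : k = l
    · subst hk
      obtain ⟨e, he, hex⟩ := hX' i k hil
      exact LN_right he hex
    · obtain ⟨e, he, hex⟩ := hY' l k hk
      refine LN_left h2K he ?_ hex (fx_alg _)
      rintro rfl
      exact (map_ne_zero (algebraMap F K)).2 (Y l).ne_zero (by rw [← hex]; ring)

end

end Pool.Agent.V7H55.FP
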