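import Mathlib
import Pool.Agent.V7H55.FP.Defs4

set_option autoImplicit false

/-!
# Free products for `p = 2`: remainders of index 4
-/

namespace Pool.Agent.V7H55.FP

open Pool.Agent.V7H55.ET (Adm Sym near)
open Pool.Agent.V7H55.ET2 (IsCone)
open Pool.Agent.Y920.EP (pwG)

/-- Q4: no symbols modulo groups of index 4 which do not contain `-1` -/
def S_Q4 : Prop := ∀ (F : Type) [Field F], (2 : F) ≠ 0 → (pwG F 2).index ≠ 0 →
    ∀ T : Subgroup Fˣ, pwG F 2 ≤ T → (∀ O : ValuationSubring F, ¬ Adm 2 T O) →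
    (∀ P : Subgroup Fˣ, IsCone P → ¬ T ≤ P) → T.index = 4 → -1 ∉ T → ∀ e ∈ Sym 2 T, e = 0

end Pool.Agent.V7H55.FP
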