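import Mathlib
import Pool.Agent.V7H55.ET2.SymA
import Pool.Agent.V7H55.FP.Defs5

set_option autoImplicit false

/-!
# No symbols modulo groups of index 8 which contain `-1`
-/

namespace Pool.Agent.V7H55.FP

open Pool.Agent.V7H55.ET (Adm Sym Sym.van Sym.isSymbol)
open Pool.Agent.V7H55.ET2 (IsCone anti' van_right' neg_right)
open Pool.Agent.Y920.EP (pwG)

lemma z2_cases (b : ZMod 2) : b = 0 ∨ b = 1 := by
  revert b
  decide

theorem sm8 (hSM : S_SM) {F : Type} [Field F] (h2 : (2 : F) ≠ 0) (hfin : (pwG F 2).index ≠ 0)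
    {T : Subgroup Fˣ} (hT : pwG F 2 ≤ T) (hadm : ∀ O : ValuationSubring F, ¬ Adm 2 T O)
    (hcone : ∀ P : Subgroup Fˣ, IsCone P → ¬ T ≤ P) (h8 : T.index = 8) (hneg : -1 ∈ T) :
    ∀ e ∈ Sym 2 T, e = 0 := by
  classical
  have hfact : Fact (Nat.Prime 2) := ⟨Nat.prime_two⟩
  intro e he
  by_contra hne
  obtain ⟨x, y, hxy⟩ : ∃ x y, e x y ≠ 0 := by
    by_contra hc
    push Not at hc
    exact hne (funext fun x => funext fun y => hc x y)
  have hxy1 := (z2_cases _).resolve_left hxy
  have hself : ∀ z, e z z = 0 := by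
    intro z
    have h3 : e z (-1 * -z) = e z (-1) + e z (-z) := he.2.1 z (-1) (-z)
    rw [neg_right he, van_right' he hneg, add_zero] at h3
    rwa [neg_one_mul, neg_neg] at h3
  have hsymm : ∀ a b, e b a = e a b := by
    intro a b
    rw [anti' he a b, ZMod.neg_eq_self_mod_two]
  let φ : Fˣ →* Multiplicative (ZMod 2 × ZMod 2) :=
    { toFun := fun n => Multiplicative.ofAdd (e x n, e y n)
      map_one' := by
        have h3 : e x 1 = 0 := van_right' he (one_mem T) x
        have h4 : e y 1 = 0 := van_right' he (one_mem T) y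
        rw [h3, h4]
        rfl
      map_mul' := by
        intro a b
        rw [he.2.1, he.2.1]
        rfl }
  have hφ : ∀ n, n ∈ φ.ker ↔ e x n = 0 ∧ e y n = 0 := by
    intro n
    rw [MonoidHom.mem_ker]
    change Multiplicative.ofAdd (e x n, e y n) = Multiplicative.ofAdd (0, 0) ↔ _
    rw [EmbeddingLike.apply_eq_iff_eq, Prod.mk.injEq]
  have hsur : Function.Surjective φ := by
    intro a
    obtain ⟨a1, a2⟩ := a
    have hcase := z2_cases
    have hyx : e y x = 1 := by rw [hsymm, hxy1]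
    rcases hcase a1 with rfl | rfl <;> rcases hcase a2 with rfl | rfl
    · exact ⟨1, map_one φ⟩
    · refine ⟨x, ?_⟩
      change Multiplicative.ofAdd (e x x, e y x) = _
      rw [hself, hyx]
      rfl
    · refine ⟨y, ?_⟩
      change Multiplicative.ofAdd (e x y, e y y) = _
      rw [hself, hxy1]
      rfl
    · refine ⟨x * y, ?_⟩
      change Multiplicative.ofAdd (e x (x * y), e y (x * y)) = _
      rw [he.2.1, he.2.1, hself, hself, hyx, hxy1]
      rfl
  set N := φ.ker with hN
  have hN4 : N.index = 4 := by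
    rw [hN, Subgroup.index_ker, MonoidHom.range_eq_top.2 hsur, Subgroup.card_top]
    change Nat.card (ZMod 2 × ZMod 2) = 4
    rw [Nat.card_prod, Nat.card_zmod]
  have hTN : T ≤ N := fun n hn => (hφ n).2 ⟨van_right' he hn x, van_right' he hn y⟩
  have hrel : T.relIndex N = 2 := by
    have h3 := Subgroup.relIndex_mul_index hTN
    rw [hN4, h8] at h3
    omega
  have hNN : ∀ n ∈ N, ∀ n' ∈ N, e n n' = 0 := by
    intro n hn n' hn'
    by_cases h3 : n ∈ T
    · exact Sym.van he h3 n'
    by_cases h4 : n' ∈ T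
    · exact van_right' he h4 n
    have h5 : (T.subgroupOf N).index = 2 := hrel
    have h6 := Subgroup.mul_mem_iff_of_index_two h5 (a := ⟨n, hn⟩) (b := ⟨n', hn'⟩)
    have h7 : n * n' ∈ T := by
      have h8 : (⟨n, hn⟩ * ⟨n', hn'⟩ : N) ∈ T.subgroupOf N := by
        rw [h6, Subgroup.mem_subgroupOf, Subgroup.mem_subgroupOf]
        exact ⟨fun h => absurd h h3, fun h => absurd h h4⟩
      exact h8
    have h9 : e n (n * n') = e n n + e n n' := he.2.1 n n n'
    rw [van_right' he h7, hself, zero_add] at h9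
    exact h9.symm
  have heN : e ∈ Sym 2 N := by
    refine ⟨he.1, he.2.1, he.2.2.1, fun n hn z => ?_⟩
    obtain ⟨hn1, hn2⟩ := (hφ n).1 hn
    -- `z` modulo `N`
    obtain ⟨g, hg, hgz⟩ : ∃ g, e n g = 0 ∧ g⁻¹ * z ∈ N := by
      have hcase := z2_cases
      have hyx : e y x = 1 := by rw [hsymm, hxy1]
      have hnx : e n x = 0 := by rw [hsymm, hn1]
      have hny : e n y = 0 := by rw [hsymm, hn2]
      have hn11 : e n 1 = 0 := van_right' he (one_mem T) n
      have key : ∀ g, φ g = φ z → g⁻¹ * z ∈ N := by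
        intro g hg
        rw [hN, MonoidHom.mem_ker, map_mul, map_inv, hg, inv_mul_cancel]
      rcases hcase (e x z) with h3 | h3 <;> rcases hcase (e y z) with h4 | h4
      · refine ⟨1, hn11, key 1 ?_⟩
        rw [map_one]
        change _ = Multiplicative.ofAdd (e x z, e y z)
        rw [h3, h4]
        rfl
      · refine ⟨x, hnx, key x ?_⟩
        change Multiplicative.ofAdd (e x x, e y x) = Multiplicative.ofAdd (e x z, e y z)
        rw [h3, h4, hself, hyx]
      · refine ⟨y, hny, key y ?_⟩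
        change Multiplicative.ofAdd (e x y, e y y) = Multiplicative.ofAdd (e x z, e y z)
        rw [h3, h4, hself, hxy1]
      · refine ⟨x * y, by rw [he.2.1, hnx, hny, add_zero], key _ ?_⟩
        change Multiplicative.ofAdd (e x (x * y), e y (x * y)) =
          Multiplicative.ofAdd (e x z, e y z)
        rw [h3, h4, he.2.1, he.2.1, hself, hself, hyx, hxy1, zero_add, add_zero]
    have h3 : e n (g * (g⁻¹ * z)) = e n g + e n (g⁻¹ * z) := he.2.1 n _ _
    rw [mul_inv_cancel_left, hg, zero_add] at h3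
    rw [h3]
    exact hNN n hn _ hgz
  refine hne (hSM F h2 hfin N (hT.trans hTN) ?_ ?_ (Or.inr ⟨hN4, hTN hneg⟩) e heN)
  · intro O hO
    refine hadm O ⟨hO.inv_mem, fun h => hO.ne_top ?_⟩
    rw [eq_top_iff, ← h]
    exact sup_le_sup_left hTN _
  · intro P hP h
    exact hcone P hP (hTN.trans h)

end Pool.Agent.V7H55.FP
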