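import Mathlib
import Pool.Agent.V7H55.FP.SM8

set_option autoImplicit false

/-!
# The radical of a symbol of the remainder
-/

namespace Pool.Agent.V7H55.FP

open Pool.Agent.V7H55.ET (Adm Sym Sym.van Sym.isSymbol exists_index_pow)
open Pool.Agent.V7H55.ET2 (IsCone anti' van_right' neg_right)
open Pool.Agent.Y920.EP (pwG)

theorem rad_bound (hSM : S_SM) (hQ4 : S_Q4) {F : Type} [Field F] (h2 : (2 : F) ≠ 0)
    (hfin : (pwG F 2).index ≠ 0)
    {T : Subgroup Fˣ} (hT : pwG F 2 ≤ T) (hadm : ∀ O : ValuationSubring F, ¬ Adm 2 T O)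
    (hcone : ∀ P : Subgroup Fˣ, IsCone P → ¬ T ≤ P) {e : Fˣ → Fˣ → ZMod 2} (he : e ∈ Sym 2 T)
    (hne : e ≠ 0) {R : Subgroup Fˣ} (hR : ∀ x, x ∈ R ↔ ∀ y, e x y = 0) :
    8 ≤ R.index ∧ (-1 ∈ R → 16 ≤ R.index) := by
  have hTR : T ≤ R := fun x hx => (hR x).2 fun y => Sym.van he hx y
  have heR : e ∈ Sym 2 R := ⟨he.1, he.2.1, he.2.2.1, fun x hx y => (hR x).1 hx y⟩
  have hadmR : ∀ O : ValuationSubring F, ¬ Adm 2 R O := by
    intro O hO
    refine hadm O ⟨hO.inv_mem, fun h => hO.ne_top ?_⟩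
    rw [eq_top_iff, ← h]
    exact sup_le_sup_left hTR _
  have hconeR : ∀ P : Subgroup Fˣ, IsCone P → ¬ R ≤ P := fun P hP h => hcone P hP (hTR.trans h)
  have hRfin : R.index ≠ 0 := by
    intro h
    have h1 := Subgroup.index_dvd_of_le (hT.trans hTR)
    rw [h, Nat.zero_dvd] at h1
    exact hfin h1
  obtain ⟨k, hk⟩ := exists_index_pow Nat.prime_two (T := R) (hT.trans hTR) hRfin
  by_cases hneg : (-1 : Fˣ) ∈ R
  · have h16 : 16 ≤ R.index := by
      by_contra hc
      rw [not_le] at hc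
      have hk4 : k < 4 := by
        rw [hk] at hc
        exact (Nat.pow_lt_pow_iff_right one_lt_two).1 (by simpa using hc)
      apply hne
      interval_cases k
      · exact hSM F h2 hfin R (hT.trans hTR) hadmR hconeR (Or.inl (by rw [hk]; norm_num)) e heR
      · exact hSM F h2 hfin R (hT.trans hTR) hadmR hconeR (Or.inl (by rw [hk]; norm_num)) e heR
      · exact hSM F h2 hfin R (hT.trans hTR) hadmR hconeR (Or.inr ⟨by rw [hk]; norm_num, hneg⟩)
          e heR
      · exact sm8 hSM h2 hfin (hT.trans hTR) hadmR hconeR (by rw [hk]; norm_num) hneg e heR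
    exact ⟨by omega, fun _ => h16⟩
  · refine ⟨?_, fun h => absurd h hneg⟩
    by_contra hc
    rw [not_le] at hc
    have hk3 : k < 3 := by
      rw [hk] at hc
      exact (Nat.pow_lt_pow_iff_right one_lt_two).1 (by simpa using hc)
    apply hne
    interval_cases k
    · exact hSM F h2 hfin R (hT.trans hTR) hadmR hconeR (Or.inl (by rw [hk]; norm_num)) e heR
    · exact hSM F h2 hfin R (hT.trans hTR) hadmR hconeR (Or.inl (by rw [hk]; norm_num)) e heR
    · exact hQ4 F h2 hfin R (hT.trans hTR) hadmR hconeR (by rw [hk]; norm_num) hneg e heR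

/-- the bound without the case of index 4 -/
theorem rad_bound4 (hSM : S_SM) {F : Type} [Field F] (h2 : (2 : F) ≠ 0)
    (hfin : (pwG F 2).index ≠ 0)
    {T : Subgroup Fˣ} (hT : pwG F 2 ≤ T) (hadm : ∀ O : ValuationSubring F, ¬ Adm 2 T O)
    (hcone : ∀ P : Subgroup Fˣ, IsCone P → ¬ T ≤ P) {e : Fˣ → Fˣ → ZMod 2} (he : e ∈ Sym 2 T)
    (hne : e ≠ 0) {R : Subgroup Fˣ} (hR : ∀ x, x ∈ R ↔ ∀ y, e x y = 0) :
    4 ≤ R.index ∧ (-1 ∈ R → 16 ≤ R.index) := by
  have hTR : T ≤ R := fun x hx => (hR x).2 fun y => Sym.van he hx y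
  have heR : e ∈ Sym 2 R := ⟨he.1, he.2.1, he.2.2.1, fun x hx y => (hR x).1 hx y⟩
  have hadmR : ∀ O : ValuationSubring F, ¬ Adm 2 R O := by
    intro O hO
    refine hadm O ⟨hO.inv_mem, fun h => hO.ne_top ?_⟩
    rw [eq_top_iff, ← h]
    exact sup_le_sup_left hTR _
  have hconeR : ∀ P : Subgroup Fˣ, IsCone P → ¬ R ≤ P := fun P hP h => hcone P hP (hTR.trans h)
  have hRfin : R.index ≠ 0 := by
    intro h
    have h1 := Subgroup.index_dvd_of_le (hT.trans hTR)
    rw [h, Nat.zero_dvd] at h1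
    exact hfin h1
  obtain ⟨k, hk⟩ := exists_index_pow Nat.prime_two (T := R) (hT.trans hTR) hRfin
  by_cases hneg : (-1 : Fˣ) ∈ R
  · have h16 : 16 ≤ R.index := by
      by_contra hc
      rw [not_le] at hc
      have hk4 : k < 4 := by
        rw [hk] at hc
        exact (Nat.pow_lt_pow_iff_right one_lt_two).1 (by simpa using hc)
      apply hne
      interval_cases k
      · exact hSM F h2 hfin R (hT.trans hTR) hadmR hconeR (Or.inl (by rw [hk]; norm_num)) e heR
      · exact hSM F h2 hfin R (hT.trans hTR) hadmR hconeR (Or.inl (by rw [hk]; norm_num)) e heR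
      · exact hSM F h2 hfin R (hT.trans hTR) hadmR hconeR (Or.inr ⟨by rw [hk]; norm_num, hneg⟩)
          e heR
      · exact sm8 hSM h2 hfin (hT.trans hTR) hadmR hconeR (by rw [hk]; norm_num) hneg e heR
    exact ⟨by omega, fun _ => h16⟩
  · refine ⟨?_, fun h => absurd h hneg⟩
    by_contra hc
    rw [not_le] at hc
    have hk3 : k < 2 := by
      rw [hk] at hc
      exact (Nat.pow_lt_pow_iff_right one_lt_two).1 (by simpa using hc)
    apply hne
    interval_cases k
    · exact hSM F h2 hfin R (hT.trans hTR) hadmR hconeR (Or.inl (by rw [hk]; norm_num)) e heR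
    · exact hSM F h2 hfin R (hT.trans hTR) hadmR hconeR (Or.inl (by rw [hk]; norm_num)) e heR

end Pool.Agent.V7H55.FP
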