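import Mathlib
import Pool.Agent.V7H55.FP.Defs

set_option autoImplicit false

/-!
# The local-global principle for a quadratic extension
-/

namespace Pool.Agent.V7H55.FP

section Sub

variable {K : Type} [Field K]

/-- `y` is a norm from `E(√x)` -/
def Sp (E : Subfield K) (x y : K) : Prop := ∃ r ∈ E, ∃ t ∈ E, y = r ^ 2 - x * t ^ 2

lemma Sp.mono {E E' : Subfield K} (h : E ≤ E') {x y : K} : Sp E x y → Sp E' x y := by
  rintro ⟨r, hr, t, ht, e⟩
  exact ⟨r, h hr, t, h ht, e⟩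

lemma sp_sq (h2 : (2 : K) ≠ 0) {E : Subfield K} {g x y : K} (hg : g ∈ E) (hg0 : g ≠ 0)
    (hx : x = g ^ 2) (hy : y ∈ E) : Sp E x y := by
  have h2E : (2 : K) ∈ E := ofNat_mem E 2
  refine ⟨(1 + y) / 2, div_mem (add_mem (one_mem E) hy) h2E, (y - 1) / (2 * g),
    div_mem (sub_mem hy (one_mem E)) (mul_mem h2E hg), ?_⟩
  rw [hx]
  field_simp
  ring

lemma Sp.mul {E : Subfield K} {x a b : K} (hx : x ∈ E) : Sp E x a → Sp E x b → Sp E x (a * b) := by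
  rintro ⟨r, hr, t, ht, e⟩ ⟨r', hr', t', ht', e'⟩
  refine ⟨r * r' + x * t * t', add_mem (mul_mem hr hr') (mul_mem (mul_mem hx ht) ht'),
    r * t' + r' * t, add_mem (mul_mem hr ht') (mul_mem hr' ht), ?_⟩
  rw [e, e']
  ring

lemma Sp.mem {E : Subfield K} {x a : K} (hx : x ∈ E) : Sp E x a → a ∈ E := by
  rintro ⟨r, hr, t, ht, e⟩
  rw [e]
  exact sub_mem (pow_mem hr 2) (mul_mem hx (pow_mem ht 2))

lemma Sp.scale {E : Subfield K} {x a b : K} (hb : b ∈ E) : Sp E x a → Sp E x (a * b ^ 2) := by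
  rintro ⟨r, hr, t, ht, e⟩
  refine ⟨r * b, mul_mem hr hb, t * b, mul_mem ht hb, ?_⟩
  rw [e]
  ring

lemma Sp.symm (h2 : (2 : K) ≠ 0) {E : Subfield K} {x y : K} (hx : x ∈ E) (hy0 : y ≠ 0) :
    Sp E x y → Sp E y x := by
  rintro ⟨r, hr, t, ht, e⟩
  by_cases ht0 : t = 0
  · subst ht0
    have hr0 : r ≠ 0 := by
      rintro rfl
      apply hy0
      rw [e]
      ring
    exact sp_sq h2 hr hr0 (by rw [e]; ring) hx
  · refine ⟨r / t, div_mem hr ht, 1 / t, div_mem (one_mem E) ht, ?_⟩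
    rw [e]
    field_simp
    ring

/-- the form `⟨x, y, -xy⟩` is isotropic -/
def Is3 (E : Subfield K) (x y : K) : Prop :=
  ∃ u ∈ E, ∃ v ∈ E, ∃ t ∈ E, ¬ (u = 0 ∧ v = 0 ∧ t = 0) ∧ x * u ^ 2 + y * v ^ 2 - x * y * t ^ 2 = 0

lemma is3_iff (h2 : (2 : K) ≠ 0) {E : Subfield K} {x y : K} (hx : x ∈ E) (hy : y ∈ E)
    (hx0 : x ≠ 0) (hy0 : y ≠ 0) : Is3 E x y ↔ Sp E x y := by
  constructor
  · rintro ⟨u, hu, v, hv, t, ht, hne, h⟩
    by_cases hu0 : u = 0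
    · subst hu0
      have hv0 : v ≠ 0 := by
        rintro rfl
        apply hne
        have : x * y * t ^ 2 = 0 := by linear_combination -h
        have := (mul_eq_zero.1 this).resolve_left (mul_ne_zero hx0 hy0)
        exact ⟨rfl, rfl, pow_eq_zero_iff two_ne_zero |>.1 this⟩
      have h1 : v ^ 2 = x * t ^ 2 := by
        have : y * (v ^ 2 - x * t ^ 2) = 0 := by linear_combination h
        have := (mul_eq_zero.1 this).resolve_left hy0
        linear_combination this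
      have ht0 : t ≠ 0 := by
        rintro rfl
        apply hv0
        have : v ^ 2 = 0 := by rw [h1]; ring
        exact pow_eq_zero_iff two_ne_zero |>.1 this
      refine sp_sq h2 (div_mem hv ht) (div_ne_zero hv0 ht0) ?_ hy
      rw [div_pow, h1]
      field_simp
    · refine ⟨t * y / u, div_mem (mul_mem ht hy) hu, v * y / (x * u),
        div_mem (mul_mem hv hy) (mul_mem hx hu), ?_⟩
      field_simp
      linear_combination h
  · rintro ⟨r, hr, t, ht, e⟩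
    refine ⟨y, hy, x * t, mul_mem hx ht, r, hr, fun h => hy0 h.1, ?_⟩
    have : x * y * (y + x * t ^ 2 - r ^ 2) = 0 := by
      rw [show y + x * t ^ 2 - r ^ 2 = 0 by rw [e]; ring, mul_zero]
    linear_combination this

lemma swap (h2 : (2 : K) ≠ 0) {E : Subfield K} {a b : K} (ha : a ∈ E) (hb : b ∈ E)
    (ha0 : a ≠ 0) (hb0 : b ≠ 0) (hab : a + b ≠ 0) : Sp E a b ↔ Sp E (a + b) (-(a * b)) := by
  have hc := add_mem ha hb
  have hz : -(a * b) ∈ E := neg_mem (mul_mem ha hb)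
  have hz0 : -(a * b) ≠ 0 := neg_ne_zero.2 (mul_ne_zero ha0 hb0)
  rw [← is3_iff h2 ha hb ha0 hb0, ← is3_iff h2 hc hz hab hz0]
  constructor
  · rintro ⟨α, hα, β, hβ, γ, hγ, hne, h⟩
    refine ⟨(a * α + b * β) / (a + b), div_mem (add_mem (mul_mem ha hα) (mul_mem hb hβ)) hc, γ, hγ,
      (α - β) / (a + b), div_mem (sub_mem hα hβ) hc, ?_, ?_⟩
    · rintro ⟨h1, h3, h4⟩
      apply hne
      rw [div_eq_zero_iff] at h1 h4
      have h1 := h1.resolve_right hab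
      have h4 := h4.resolve_right hab
      have e : α = β := sub_eq_zero.1 h4
      rw [← e] at h1
      have h5 : (a + b) * α = 0 := by linear_combination h1
      have h6 := (mul_eq_zero.1 h5).resolve_left hab
      exact ⟨h6, by rw [← e]; exact h6, h3⟩
    · field_simp
      linear_combination (a + b) * h
  · rintro ⟨p, hp, γ, hγ, q, hq, hne, h⟩
    refine ⟨p + b * q, add_mem hp (mul_mem hb hq), p - a * q, sub_mem hp (mul_mem ha hq), γ, hγ,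
      ?_, ?_⟩
    · rintro ⟨h1, h3, h4⟩
      apply hne
      have h5 : (a + b) * q = 0 := by linear_combination h1 - h3
      have h6 := (mul_eq_zero.1 h5).resolve_left hab
      rw [h6, mul_zero, add_zero] at h1
      exact ⟨h1, h4, h6⟩
    · linear_combination h

theorem stepA (h2 : (2 : K) ≠ 0) {E₀ : Subfield K} {x y u v t f : K} (hx : x ∈ E₀) (hy : y ∈ E₀)
    (hu : u ∈ E₀) (hv : v ∈ E₀) (ht : t ∈ E₀) (hx0 : x ≠ 0) (hy0 : y ≠ 0)
    (hne : ¬ (u = 0 ∧ v = 0 ∧ t = 0)) (hf : f = x * u ^ 2 + y * v ^ 2 - x * y * t ^ 2) :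
    Sp E₀ x y ∨ (f ≠ 0 ∧ ∃ z ∈ E₀, z ≠ 0 ∧ ∀ E : Subfield K, E₀ ≤ E → (Sp E x y ↔ Sp E f z)) := by
  by_cases hf0 : f = 0
  · left
    rw [← is3_iff h2 hx hy hx0 hy0]
    exact ⟨u, hu, v, hv, t, ht, hne, by rw [← hf, hf0]⟩
  by_cases hn : v ^ 2 - x * t ^ 2 = 0
  · by_cases ht0 : t = 0
    · subst ht0
      have hv0 : v = 0 := by
        have : v ^ 2 = 0 := by linear_combination hn
        exact pow_eq_zero_iff two_ne_zero |>.1 this
      subst hv0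
      right
      have hfe : f = x * u ^ 2 := by rw [hf]; ring
      have hu0 : u ≠ 0 := by
        rintro rfl
        exact hf0 (by rw [hfe]; ring)
      refine ⟨hf0, y, hy, hy0, fun E hE => ?_⟩
      constructor
      · rintro ⟨r, hr, s, hs, e⟩
        refine ⟨r, hr, s / u, div_mem hs (hE hu), ?_⟩
        rw [e, hfe]
        field_simp
      · rintro ⟨r, hr, s, hs, e⟩
        refine ⟨r, hr, s * u, mul_mem hs (hE hu), ?_⟩
        rw [e, hfe]
        ring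
    · left
      have hv0 : v ≠ 0 := by
        rintro rfl
        have : x * t ^ 2 = 0 := by linear_combination -hn
        rcases mul_eq_zero.1 this with h | h
        · exact hx0 h
        · exact ht0 (pow_eq_zero_iff two_ne_zero |>.1 h)
      refine sp_sq h2 (div_mem hv ht) (div_ne_zero hv0 ht0) ?_ hy
      have h1 : v ^ 2 = x * t ^ 2 := by linear_combination hn
      rw [div_pow, h1]
      field_simp
  · right
    set n := v ^ 2 - x * t ^ 2 with hndef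
    have hnE : n ∈ E₀ := sub_mem (pow_mem hv 2) (mul_mem hx (pow_mem ht 2))
    have hnsp : ∀ E : Subfield K, E₀ ≤ E → Sp E x n := fun E hE => ⟨v, hE hv, t, hE ht, rfl⟩
    have hyn : ∀ E : Subfield K, E₀ ≤ E → (Sp E x y ↔ Sp E x (y * n)) := by
      intro E hE
      constructor
      · intro h
        exact h.mul (hE hx) (hnsp E hE)
      · intro h
        have h1 := (h.mul (hE hx) (hnsp E hE)).scale (inv_mem (hE hnE))
        have e : y * n * n * n⁻¹ ^ 2 = y := by field_simp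
        rwa [e] at h1
    by_cases hu0 : u = 0
    · subst hu0
      have hfe : f = y * n := by rw [hf, hndef]; ring
      refine ⟨hf0, x, hx, hx0, fun E hE => ?_⟩
      rw [hyn E hE, hfe]
      exact ⟨fun h => h.symm h2 (hE hx) (mul_ne_zero hy0 hn),
        fun h => h.symm h2 (hE (mul_mem hy hnE)) hx0⟩
    · have hfe : f = x * u ^ 2 + y * n := by rw [hf, hndef]; ring
      have hx' : x * u ^ 2 ∈ E₀ := mul_mem hx (pow_mem hu 2)
      have hy' : y * n ∈ E₀ := mul_mem hy hnE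
      have hx'0 : x * u ^ 2 ≠ 0 := mul_ne_zero hx0 (pow_ne_zero 2 hu0)
      have hy'0 : y * n ≠ 0 := mul_ne_zero hy0 hn
      refine ⟨hf0, -(x * u ^ 2 * (y * n)), neg_mem (mul_mem hx' hy'),
        neg_ne_zero.2 (mul_ne_zero hx'0 hy'0), fun E hE => ?_⟩
      rw [hyn E hE, hfe, ← swap h2 (hE hx') (hE hy') hx'0 hy'0 (by rw [← hfe]; exact hf0)]
      constructor
      · rintro ⟨r, hr, s, hs, e⟩
        refine ⟨r, hr, s / u, div_mem hs (hE hu), ?_⟩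
        rw [e]
        field_simp
      · rintro ⟨r, hr, s, hs, e⟩
        refine ⟨r, hr, s * u, mul_mem hs (hE hu), ?_⟩
        rw [e]
        ring

end Sub

section Act

variable {G K S : Type} [Group G] [Field K] [MulSemiringAction G K] [MulAction G S]

/-- the subfield of the elements fixed by `U` -/
def FS (U : Subgroup G) : Subfield K where
  carrier := {x | Fx U x}
  mul_mem' := fun hx hy u hu => by rw [smul_mul', hx u hu, hy u hu]
  one_mem' := fun u _ => smul_one u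
  add_mem' := fun hx hy u hu => by rw [smul_add, hx u hu, hy u hu]
  zero_mem' := fun u _ => smul_zero u
  neg_mem' := fun hx u hu => by rw [smul_neg, hx u hu]
  inv_mem' := fun x hx u hu => by rw [smul_inv'', hx u hu]

lemma mem_FS {U : Subgroup G} {x : K} : x ∈ (FS U : Subfield K) ↔ Fx U x := Iff.rfl

lemma FS_mono {U U' : Subgroup G} (h : U' ≤ U) : (FS U : Subfield K) ≤ FS U' :=
  fun _ hx u hu => hx u (h hu)

variable {U U' : Subgroup G} {τ : G} {w : K}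

lemma Half.conj (h : Half U U' τ w) {u : G} (hu : u ∈ U') : τ⁻¹ * u * τ ∈ U' := by
  obtain ⟨hle, hτ, hτ', hc, -⟩ := h
  rcases hc (u * τ) (mul_mem (hle hu) hτ) with h1 | h1
  · exfalso
    apply hτ'
    have := mul_mem (inv_mem hu) h1
    rwa [inv_mul_cancel_left] at this
  · rwa [← mul_assoc] at h1

lemma Half.sq (h : Half U U' τ w) : τ * τ ∈ U' := by
  obtain ⟨hle, hτ, hτ', hc, -⟩ := h
  rcases hc (τ * τ) (mul_mem hτ hτ) with h1 | h1
  · exact h1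
  · rw [inv_mul_cancel_left] at h1
    exact absurd h1 hτ'

lemma Half.fx (h : Half U U' τ w) {x : K} (hx : Fx U' x) (hτx : τ • x = x) : Fx U x := by
  intro u hu
  rcases h.2.2.2.1 u hu with h1 | h1
  · exact hx u h1
  · have e : u = τ * (τ⁻¹ * u) := by rw [mul_inv_cancel_left]
    rw [e, mul_smul, hx _ h1, hτx]

lemma Half.ev (h : Half U U' τ w) {f : S → K} (hf : Ev U' f) (hτf : ∀ s, f (τ • s) = τ • f s) :
    Ev U f := by
  intro u hu s
  rcases h.2.2.2.1 u hu with h1 | h1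
  · exact hf u h1 s
  · have e1 : u • s = τ • (τ⁻¹ * u) • s := by rw [← mul_smul, mul_inv_cancel_left]
    have e2 : u • f s = τ • (τ⁻¹ * u) • f s := by rw [← mul_smul, mul_inv_cancel_left]
    rw [e1, e2, hτf, hf _ h1]

lemma Half.fx_τ (h : Half U U' τ w) {x : K} (hx : Fx U' x) : Fx U' (τ • x) := by
  intro u hu
  have e : u * τ = τ * (τ⁻¹ * u * τ) := by group
  rw [← mul_smul, e, mul_smul, hx _ (h.conj hu)]

lemma Half.ττ (h : Half U U' τ w) {x : K} (hx : Fx U' x) : τ • τ • x = x := by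
  rw [← mul_smul, hx _ h.sq]

/-- the conjugate function -/
def bar (τ : G) (f : S → K) : S → K := fun s => τ • f (τ⁻¹ • s)

lemma Half.bar_ev (h : Half U U' τ w) {f : S → K} (hf : Ev U' f) : Ev U' (bar τ f) := by
  intro u hu s
  change τ • f (τ⁻¹ • u • s) = u • τ • f (τ⁻¹ • s)
  have e : τ⁻¹ • u • s = (τ⁻¹ * u * τ) • τ⁻¹ • s := by
    rw [← mul_smul, ← mul_smul]
    congr 1
    group
  rw [e, hf _ (h.conj hu), ← mul_smul, ← mul_smul]
  congr 1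
  group

lemma Half.bar_τ (h : Half U U' τ w) {f : S → K} (hf : Ev U' f) (s : S) :
    bar τ f (τ • s) = τ • f s ∧ f (τ • s) = τ • bar τ f s := by
  constructor
  · change τ • f (τ⁻¹ • τ • s) = _
    rw [inv_smul_smul]
  · change f (τ • s) = τ • τ • f (τ⁻¹ • s)
    rw [← mul_smul, ← hf _ h.sq, mul_smul, smul_inv_smul]

/-- decomposition -/
lemma Half.dec_fun (h2 : (2 : K) ≠ 0) (h : Half U U' τ w) {f : S → K} (hf : Ev U' f) :
    ∃ f₀ f₁ : S → K, Ev U f₀ ∧ Ev U f₁ ∧ ∀ s, f s = f₀ s + f₁ s * w := by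
  have hw := h.2.2.2.2.1
  have hwU := h.2.2.2.2.2.1
  have hwτ := h.2.2.2.2.2.2
  have hbar := h.bar_ev hf
  have h2f : ∀ g : G, g • (2 : K) = 2 := fun g => by
    rw [show (2 : K) = 1 + 1 by norm_num, smul_add, smul_one]
  refine ⟨fun s => (f s + bar τ f s) / 2, fun s => (f s - bar τ f s) / (2 * w), ?_, ?_, ?_⟩
  · refine h.ev ?_ ?_
    · intro u hu s
      change (f (u • s) + bar τ f (u • s)) / 2 = u • ((f s + bar τ f s) / 2)
      rw [hf u hu, hbar u hu, smul_div₀', smul_add, h2f]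
    · intro s
      rw [(h.bar_τ hf s).1, (h.bar_τ hf s).2, smul_div₀', smul_add, h2f, add_comm]
  · refine h.ev ?_ ?_
    · intro u hu s
      change (f (u • s) - bar τ f (u • s)) / (2 * w) = u • ((f s - bar τ f s) / (2 * w))
      rw [hf u hu, hbar u hu, smul_div₀', smul_sub, smul_mul', h2f, hwU u hu]
    · intro s
      rw [(h.bar_τ hf s).1, (h.bar_τ hf s).2, smul_div₀', smul_sub, smul_mul', h2f, hwτ]
      rw [div_eq_div_iff (mul_ne_zero h2 hw) (mul_ne_zero h2 (neg_ne_zero.2 hw))]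
      ring
  · intro s
    change f s = (f s + bar τ f s) / 2 + (f s - bar τ f s) / (2 * w) * w
    field_simp
    ring

lemma Half.uniq_fun (h2 : (2 : K) ≠ 0) (h : Half U U' τ w) {A B : S → K} (hA : Ev U A)
    (hB : Ev U B) (h0 : ∀ s, A s + B s * w = 0) (s : S) : A s = 0 ∧ B s = 0 := by
  have hw := h.2.2.2.2.1
  have hwτ := h.2.2.2.2.2.2
  have h1 := congrArg (fun x => τ • x) (h0 (τ⁻¹ • s))
  simp only [smul_add, smul_mul', smul_zero, hwτ] at h1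
  rw [← hA τ h.2.1, ← hB τ h.2.1, smul_inv_smul] at h1
  have h3 := h0 s
  have h4 : 2 * A s = 0 := by linear_combination h1 + h3
  have h5 := (mul_eq_zero.1 h4).resolve_left h2
  rw [h5, zero_add] at h3
  exact ⟨h5, (mul_eq_zero.1 h3).resolve_right hw⟩

lemma Half.dec (h2 : (2 : K) ≠ 0) (h : Half U U' τ w) {x : K} (hx : Fx U' x) :
    ∃ x₀ x₁ : K, Fx U x₀ ∧ Fx U x₁ ∧ x = x₀ + x₁ * w := by
  obtain ⟨f₀, f₁, h0, h1, h3⟩ := h.dec_fun (S := Unit) (f := fun _ => x) h2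
    (fun u hu _ => (hx u hu).symm)
  exact ⟨f₀ (), f₁ (), fun u hu => (h0 u hu ()).symm, fun u hu => (h1 u hu ()).symm, h3 ()⟩

lemma Half.uniq (h2 : (2 : K) ≠ 0) (h : Half U U' τ w) {A B : K} (hA : Fx U A)
    (hB : Fx U B) (h0 : A + B * w = 0) : A = 0 ∧ B = 0 :=
  h.uniq_fun (S := Unit) (A := fun _ => A) (B := fun _ => B) h2 (fun u hu _ => (hA u hu).symm)
    (fun u hu _ => (hB u hu).symm) (fun _ => h0) ()

/-- local solutions, pointwise -/
lemma sp_loc {U' : Subgroup G} {x y : K} (hs : ∀ s : S, Sp (FS (U' ⊓ MulAction.stabilizer G s)) x y)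
    (hCH : S_CH) (hx : Fx U' x) (hy : Fx U' y) :
    ∃ r t : S → K, Ev U' r ∧ Ev U' t ∧ ∀ s, y = r s ^ 2 - x * t s ^ 2 := by
  have hQ1 : ∀ u ∈ U', ∀ (s : S) (v : K × K), y = v.1 ^ 2 - x * v.2 ^ 2 →
      y = (u • v).1 ^ 2 - x * (u • v).2 ^ 2 := by
    intro u hu s v hv
    change y = (u • v.1) ^ 2 - x * (u • v.2) ^ 2
    have h1 := congrArg (fun a => u • a) hv
    simp only [smul_sub, smul_mul', smul_pow', hx u hu, hy u hu] at h1
    exact h1
  have hQ2 : ∀ s : S, ∃ v : K × K, (∀ u ∈ U', u • s = s → u • v = v) ∧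
      y = v.1 ^ 2 - x * v.2 ^ 2 := by
    intro s
    obtain ⟨r, hr, t, ht, e⟩ := hs s
    refine ⟨(r, t), fun u hu hus => ?_, e⟩
    have hu' : u ∈ U' ⊓ MulAction.stabilizer G s := ⟨hu, hus⟩
    exact Prod.ext (hr u hu') (ht u hu')
  obtain ⟨f, hf1, hf2⟩ := hCH G S (K × K) U' (fun _ v => y = v.1 ^ 2 - x * v.2 ^ 2) hQ1 hQ2
  refine ⟨fun s => (f s).1, fun s => (f s).2, fun u hu s => ?_, fun u hu s => ?_, hf2⟩
  · change (f (u • s)).1 = u • (f s).1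
    rw [hf1 u hu]
    rfl
  · change (f (u • s)).2 = u • (f s).2
    rw [hf1 u hu]
    rfl

lemma loc_sp {U' : Subgroup G} {x y : K}
    (h : ∃ r t : S → K, Ev U' r ∧ Ev U' t ∧ ∀ s, y = r s ^ 2 - x * t s ^ 2) (s : S) :
    Sp (FS (U' ⊓ MulAction.stabilizer G s)) x y := by
  obtain ⟨r, t, hr, ht, e⟩ := h
  refine ⟨r s, fun u hu => ?_, t s, fun u hu => ?_, e s⟩
  · rw [← hr u hu.1, show u • s = s from hu.2]
  · rw [← ht u hu.1, show u • s = s from hu.2]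

/-- the first slot is in the smaller field -/
theorem stepB0 (h2 : (2 : K) ≠ 0) (h : Half U U' τ w) (hA : Ax K S U) (hCH : S_CH)
    {f z : K} (hf : Fx U f) (hz : Fx U' z) (hf0 : f ≠ 0) (hz0 : z ≠ 0)
    (hl : ∀ s : S, Sp (FS (U' ⊓ MulAction.stabilizer G s)) f z) :
    Sp (FS U' : Subfield K) f z ∨ ∃ g : K, Fx U g ∧ g ≠ 0 ∧
      ∀ E : Subfield K, (FS U' : Subfield K) ≤ E → (Sp E f z ↔ Sp E f g) := by
  have hle := h.1
  have hw := h.2.2.2.2.1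
  have hwU := h.2.2.2.2.2.1
  have hwτ := h.2.2.2.2.2.2
  have hfU' : Fx U' f := fun u hu => hf u (hle hu)
  have haU : Fx U (w ^ 2) := by
    refine h.fx (fun u hu => by rw [smul_pow', hwU u hu]) ?_
    rw [smul_pow', hwτ]
    ring
  obtain ⟨r, t, hr, ht, e⟩ := sp_loc hl hCH hfU' hz
  obtain ⟨r₀, r₁, hr0, hr1, er⟩ := h.dec_fun h2 hr
  obtain ⟨t₀, t₁, ht0, ht1, et⟩ := h.dec_fun h2 ht
  obtain ⟨z₀, z₁, hz0', hz1', ez⟩ := h.dec h2 hz
  -- the norm of `z`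
  have hN0 : z₀ ^ 2 - w ^ 2 * z₁ ^ 2 ≠ 0 := by
    have e1 : z₀ ^ 2 - w ^ 2 * z₁ ^ 2 = z * (z₀ - z₁ * w) := by rw [ez]; ring
    rw [e1]
    refine mul_ne_zero hz0 ?_
    intro h0
    obtain ⟨h3, h4⟩ := h.uniq h2 (A := z₀) (B := -z₁) hz0' (neg_mem (S := Subfield K)
      (s := FS U) hz1') (by linear_combination h0)
    apply hz0
    rw [ez, h3, neg_eq_zero.1 h4]
    ring
  have hNU : Fx U (z₀ ^ 2 - w ^ 2 * z₁ ^ 2) := by
    have : z₀ ^ 2 - w ^ 2 * z₁ ^ 2 ∈ (FS U : Subfield K) :=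
      sub_mem (pow_mem hz0' 2) (mul_mem haU (pow_mem hz1' 2))
    exact this
  have key : ∀ s, z₀ = r₀ s ^ 2 + w ^ 2 * r₁ s ^ 2 - f * (t₀ s ^ 2 + w ^ 2 * t₁ s ^ 2) ∧
      z₁ = 2 * (r₀ s * r₁ s) - 2 * (f * (t₀ s * t₁ s)) := by
    have hcomb : ∀ s, (r₀ s ^ 2 + w ^ 2 * r₁ s ^ 2 - f * (t₀ s ^ 2 + w ^ 2 * t₁ s ^ 2) - z₀) +
        (2 * (r₀ s * r₁ s) - 2 * (f * (t₀ s * t₁ s)) - z₁) * w = 0 := by
      intro s
      have e1 := e s
      rw [er s, et s, ez] at e1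
      linear_combination -e1
    intro s
    have h3 := h.uniq_fun h2 (A := fun s => r₀ s ^ 2 + w ^ 2 * r₁ s ^ 2 -
      f * (t₀ s ^ 2 + w ^ 2 * t₁ s ^ 2) - z₀) (B := fun s => 2 * (r₀ s * r₁ s) -
      2 * (f * (t₀ s * t₁ s)) - z₁) ?_ ?_ hcomb s
    · exact ⟨by linear_combination -h3.1, by linear_combination -h3.2⟩
    · intro u hu s
      simp only [smul_sub, smul_add, smul_mul', smul_pow', hr0 u hu, hr1 u hu, ht0 u hu, ht1 u hu,
        hf u hu, hz0' u hu]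
      have := haU u hu
      rw [smul_pow'] at this
      rw [this]
    · intro u hu s
      have h2f : u • (2 : K) = 2 := by
        rw [show (2 : K) = 1 + 1 by norm_num, smul_add, smul_one]
      simp only [smul_sub, smul_mul', hr0 u hu, hr1 u hu, ht0 u hu, ht1 u hu,
        hf u hu, hz1' u hu, h2f]
  have hloc : ∃ r t : S → K, Ev U r ∧ Ev U t ∧
      ∀ s, z₀ ^ 2 - w ^ 2 * z₁ ^ 2 = r s ^ 2 - f * t s ^ 2 := by
    refine ⟨fun s => (r₀ s ^ 2 - w ^ 2 * r₁ s ^ 2) + f * (t₀ s ^ 2 - w ^ 2 * t₁ s ^ 2),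
      fun s => 2 * (r₀ s * t₀ s - w ^ 2 * (r₁ s * t₁ s)), ?_, ?_, ?_⟩
    · intro u hu s
      simp only [smul_sub, smul_add, smul_mul', smul_pow', hr0 u hu, hr1 u hu, ht0 u hu, ht1 u hu,
        hf u hu]
      have := haU u hu
      rw [smul_pow'] at this
      rw [this]
    · intro u hu s
      have h2f : u • (2 : K) = 2 := by
        rw [show (2 : K) = 1 + 1 by norm_num, smul_add, smul_one]
      simp only [smul_sub, smul_mul', smul_pow', hr0 u hu, hr1 u hu, ht0 u hu, ht1 u hu, h2f]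
      have := haU u hu
      rw [smul_pow'] at this
      rw [this]
    · intro s
      obtain ⟨k1, k2⟩ := key s
      simp only
      rw [k1, k2]
      ring
  obtain ⟨m, n, hm, hn, emn⟩ := hA.h1 f (z₀ ^ 2 - w ^ 2 * z₁ ^ 2) hf hNU hf0 hN0 hloc
  have hmU' : m ∈ (FS U' : Subfield K) := FS_mono hle hm
  have hnU' : n ∈ (FS U' : Subfield K) := FS_mono hle hn
  -- the norm principle
  have fin : ∀ m' : K, Fx U m' → m' ^ 2 = m ^ 2 → 2 * z₀ + 2 * m' ≠ 0 →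
      ∃ g : K, Fx U g ∧ g ≠ 0 ∧
      ∀ E : Subfield K, (FS U' : Subfield K) ≤ E → (Sp E f z ↔ Sp E f g) := by
    intro m' hm' hmm hg
    have h2E : (2 : K) ∈ (FS U : Subfield K) := ofNat_mem _ 2
    refine ⟨2 * z₀ + 2 * m', add_mem (S := Subfield K) (s := FS U) (mul_mem h2E hz0')
      (mul_mem h2E hm'), hg, fun E hE => ?_⟩
    have hzg : Sp E f (z * (2 * z₀ + 2 * m')) := by
      refine ⟨z + m', hE (add_mem (s := (FS U' : Subfield K)) hz (FS_mono hle hm')), n, hE hnU', ?_⟩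
      have h3 : (z - z₀) ^ 2 = w ^ 2 * z₁ ^ 2 := by rw [ez]; ring
      linear_combination -h3 + emn - hmm
    have hfE : f ∈ E := hE hfU'
    have hzE : z ∈ E := hE hz
    have hgE : 2 * z₀ + 2 * m' ∈ E := by
      refine hE (FS_mono hle ?_)
      exact add_mem (S := Subfield K) (s := FS U) (mul_mem h2E hz0') (mul_mem h2E hm')
    constructor
    · intro h3
      have h4 := (h3.mul hfE hzg).scale (inv_mem hzE)
      have e1 : z * (z * (2 * z₀ + 2 * m')) * z⁻¹ ^ 2 = 2 * z₀ + 2 * m' := by field_simp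
      rwa [e1] at h4
    · intro h3
      have h4 := (h3.mul hfE hzg).scale (inv_mem hgE)
      have e1 : (2 * z₀ + 2 * m') * (z * (2 * z₀ + 2 * m')) * (2 * z₀ + 2 * m')⁻¹ ^ 2 = z := by
        generalize 2 * z₀ + 2 * m' = g at hg
        field_simp
      rwa [e1] at h4
  by_cases hg : 2 * z₀ + 2 * m = 0
  · by_cases hg' : 2 * z₀ + 2 * (-m) = 0
    · left
      have h3 : 2 * (2 * z₀) = 0 := by linear_combination hg + hg'
      have h4 : z₀ = 0 := (mul_eq_zero.1 ((mul_eq_zero.1 h3).resolve_left h2)).resolve_left h2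
      have h5 : 2 * (2 * m) = 0 := by linear_combination hg - hg'
      have h6 : m = 0 := (mul_eq_zero.1 ((mul_eq_zero.1 h5).resolve_left h2)).resolve_left h2
      rw [h4, h6] at emn
      have hn0 : n ≠ 0 := by
        rintro rfl
        apply hz0
        rw [ez, h4, zero_add]
        have h7 : (z₁ * w) ^ 2 = 0 := by linear_combination -emn
        exact pow_eq_zero_iff two_ne_zero |>.1 h7
      refine sp_sq h2 (div_mem hz hnU') (div_ne_zero hz0 hn0) ?_ hz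
      rw [div_pow, ez, h4]
      field_simp
      linear_combination emn
    · right
      exact fin (-m) (neg_mem (S := Subfield K) (s := FS U) hm) (by ring) hg'
  · right
    exact fin m hm rfl hg

/-- both slots are in the smaller field -/
theorem stepC (h2 : (2 : K) ≠ 0) (h : Half U U' τ w) (hA : Ax K S U) (hCH : S_CH) (hLG : S_LG)
    {f g : K} (hf : Fx U f) (hg : Fx U g) (hf0 : f ≠ 0) (hg0 : g ≠ 0)
    (hl : ∀ s : S, Sp (FS (U' ⊓ MulAction.stabilizer G s)) f g) :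
    Sp (FS U' : Subfield K) f g := by
  have hle := h.1
  have hw := h.2.2.2.2.1
  have hwU := h.2.2.2.2.2.1
  have hwτ := h.2.2.2.2.2.2
  have hfU' : Fx U' f := fun u hu => hf u (hle hu)
  have hgU' : Fx U' g := fun u hu => hg u (hle hu)
  have haU : Fx U (w ^ 2) := by
    refine h.fx (fun u hu => by rw [smul_pow', hwU u hu]) ?_
    rw [smul_pow', hwτ]
    ring
  obtain ⟨r, t, hr, ht, e⟩ := sp_loc hl hCH hfU' hgU'
  obtain ⟨r₀, r₁, hr0, hr1, er⟩ := h.dec_fun h2 hr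
  obtain ⟨t₀, t₁, ht0, ht1, et⟩ := h.dec_fun h2 ht
  have key : ∀ s, g = r₀ s ^ 2 + w ^ 2 * r₁ s ^ 2 - f * (t₀ s ^ 2 + w ^ 2 * t₁ s ^ 2) ∧
      r₀ s * r₁ s = f * (t₀ s * t₁ s) := by
    have hcomb : ∀ s, (r₀ s ^ 2 + w ^ 2 * r₁ s ^ 2 - f * (t₀ s ^ 2 + w ^ 2 * t₁ s ^ 2) - g) +
        (2 * (r₀ s * r₁ s) - 2 * (f * (t₀ s * t₁ s))) * w = 0 := by
      intro s
      have e1 := e s
      rw [er s, et s] at e1
      linear_combination -e1
    intro s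
    have hE1 : Ev U (fun s => r₀ s ^ 2 + w ^ 2 * r₁ s ^ 2 -
      f * (t₀ s ^ 2 + w ^ 2 * t₁ s ^ 2) - g) := by
      intro u hu s
      simp only [smul_sub, smul_add, smul_mul', smul_pow', hr0 u hu, hr1 u hu, ht0 u hu, ht1 u hu,
        hf u hu, hg u hu]
      have := haU u hu
      rw [smul_pow'] at this
      rw [this]
    have hE2 : Ev U (fun s => 2 * (r₀ s * r₁ s) - 2 * (f * (t₀ s * t₁ s))) := by
      intro u hu s
      have h2f : u • (2 : K) = 2 := by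
        rw [show (2 : K) = 1 + 1 by norm_num, smul_add, smul_one]
      simp only [smul_sub, smul_mul', hr0 u hu, hr1 u hu, ht0 u hu, ht1 u hu, hf u hu, h2f]
    have h3 := h.uniq_fun h2 hE1 hE2 hcomb s
    refine ⟨by linear_combination -h3.1, ?_⟩
    have h4 : 2 * (r₀ s * r₁ s - f * (t₀ s * t₁ s)) = 0 := by linear_combination h3.2
    exact sub_eq_zero.1 ((mul_eq_zero.1 h4).resolve_left h2)
  classical
  set X : S → Fin 4 → K := fun s => if r₁ s = 0 ∧ t₁ s = 0 then ![g, f * t₀ s, r₀ s, 0] else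
    ![t₀ s * r₁ s - r₀ s * t₁ s, r₁ s, t₁ s, r₁ s ^ 2 - f * t₁ s ^ 2] with hX
  obtain ⟨v, hv0, hvU, hv⟩ := hLG G K S U h2 hA 4 (by norm_num)
    ![f, g, -(f * g), -(w ^ 2)] (by
      intro i
      fin_cases i
      · exact ⟨hf, hf0⟩
      · exact ⟨hg, hg0⟩
      · exact ⟨neg_mem (S := Subfield K) (s := FS U) (mul_mem (s := FS U) hf hg),
          neg_ne_zero.2 (mul_ne_zero hf0 hg0)⟩
      · exact ⟨neg_mem (S := Subfield K) (s := FS U) haU, neg_ne_zero.2 (pow_ne_zero 2 hw)⟩)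
    X (by
      intro i u hu s
      have hXu : X (u • s) = fun i => u • X s i := by
        by_cases hc : r₁ s = 0 ∧ t₁ s = 0
        · have hc' : r₁ (u • s) = 0 ∧ t₁ (u • s) = 0 := by
            rw [hr1 u hu, ht1 u hu, hc.1, hc.2, smul_zero]
            exact ⟨rfl, rfl⟩
          simp only [hX, if_pos hc, if_pos hc']
          funext j
          fin_cases j
          · exact (hg u hu).symm
          · change f * t₀ (u • s) = u • (f * t₀ s)
            rw [smul_mul', hf u hu, ht0 u hu]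
          · exact hr0 u hu s
          · exact (smul_zero u).symm
        · have hc' : ¬ (r₁ (u • s) = 0 ∧ t₁ (u • s) = 0) := by
            rw [hr1 u hu, ht1 u hu, smul_eq_zero_iff_eq, smul_eq_zero_iff_eq]
            exact hc
          simp only [hX, if_neg hc, if_neg hc']
          funext j
          fin_cases j
          · change t₀ (u • s) * r₁ (u • s) - r₀ (u • s) * t₁ (u • s) =
              u • (t₀ s * r₁ s - r₀ s * t₁ s)
            rw [smul_sub, smul_mul', smul_mul', ht0 u hu, hr1 u hu, hr0 u hu, ht1 u hu]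
          · exact hr1 u hu s
          · exact ht1 u hu s
          · change r₁ (u • s) ^ 2 - f * t₁ (u • s) ^ 2 = u • (r₁ s ^ 2 - f * t₁ s ^ 2)
            rw [smul_sub, smul_mul', smul_pow', smul_pow', hf u hu, hr1 u hu, ht1 u hu]
      exact congrFun hXu i)
    (by
      intro s h0
      by_cases hc : r₁ s = 0 ∧ t₁ s = 0
      · simp only [hX, if_pos hc] at h0
        exact hg0 (congrFun h0 0)
      · simp only [hX, if_neg hc] at h0
        exact hc ⟨congrFun h0 1, congrFun h0 2⟩)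
    (by
      intro s
      obtain ⟨k1, k2⟩ := key s
      rw [Fin.sum_univ_four]
      by_cases hc : r₁ s = 0 ∧ t₁ s = 0
      · simp only [hX, if_pos hc]
        change f * g ^ 2 + g * (f * t₀ s) ^ 2 + -(f * g) * r₀ s ^ 2 + -(w ^ 2) * 0 ^ 2 = 0
        rw [hc.1, hc.2] at k1
        linear_combination f * g * k1
      · simp only [hX, if_neg hc]
        change f * (t₀ s * r₁ s - r₀ s * t₁ s) ^ 2 + g * r₁ s ^ 2 + -(f * g) * t₁ s ^ 2 +
          -(w ^ 2) * (r₁ s ^ 2 - f * t₁ s ^ 2) ^ 2 = 0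
        linear_combination (r₁ s ^ 2 - f * t₁ s ^ 2) * k1 +
          (r₀ s * r₁ s - f * (t₀ s * t₁ s)) * k2)
  rw [Fin.sum_univ_four] at hv
  change f * v 0 ^ 2 + g * v 1 ^ 2 + -(f * g) * v 2 ^ 2 + -(w ^ 2) * v 3 ^ 2 = 0 at hv
  have hne : ¬ (v 0 = 0 ∧ v 1 = 0 ∧ v 2 = 0) := by
    rintro ⟨a0, a1, a2⟩
    apply hv0
    rw [a0, a1, a2] at hv
    have a3 : w ^ 2 * v 3 ^ 2 = 0 := by linear_combination -hv
    have a3 := (mul_eq_zero.1 a3).resolve_left (pow_ne_zero 2 hw)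
    have a3 := pow_eq_zero_iff two_ne_zero |>.1 a3
    funext i
    fin_cases i
    · exact a0
    · exact a1
    · exact a2
    · exact a3
  have hvU' : ∀ i, v i ∈ (FS U' : Subfield K) := fun i => FS_mono hle (hvU i)
  rcases stepA h2 (E₀ := FS U') hfU' hgU' (hvU' 0) (hvU' 1) (hvU' 2) hf0 hg0 hne rfl with h3 | h3
  · exact h3
  · obtain ⟨hF0, z, hz, -, hE⟩ := h3
    rw [hE _ le_rfl]
    have hv3 : v 3 ≠ 0 := by
      intro h0
      apply hF0
      rw [h0] at hv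
      linear_combination hv
    refine sp_sq h2 (g := w * v 3) (mul_mem (s := (FS U' : Subfield K)) hwU (hvU' 3))
      (mul_ne_zero hw hv3) ?_ hz
    linear_combination hv

theorem stepB (h2 : (2 : K) ≠ 0) (h : Half U U' τ w) (hA : Ax K S U) (hCH : S_CH) (hLG : S_LG)
    {f z : K} (hf : Fx U f) (hz : Fx U' z) (hf0 : f ≠ 0) (hz0 : z ≠ 0)
    (hl : ∀ s : S, Sp (FS (U' ⊓ MulAction.stabilizer G s)) f z) :
    Sp (FS U' : Subfield K) f z := by
  rcases stepB0 h2 h hA hCH hf hz hf0 hz0 hl with h1 | ⟨g, hg, hg0, hE⟩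
  · exact h1
  · rw [hE _ le_rfl]
    exact stepC h2 h hA hCH hLG hf hg hf0 hg0 fun s => (hE _ (FS_mono inf_le_left)).1 (hl s)

lemma tr_form {a x₀ x₁ : K} (hx₁ : x₁ ≠ 0) (u₀ u₁ : K) :
    x₁⁻¹ * (x₁ * u₀ + x₀ * u₁) ^ 2 + -((x₀ ^ 2 - a * x₁ ^ 2) * x₁⁻¹) * u₁ ^ 2 =
      x₁ * (u₀ ^ 2 + a * u₁ ^ 2) + 2 * (x₀ * (u₀ * u₁)) := by
  field_simp
  ring

lemma Half.norm_ne (h2 : (2 : K) ≠ 0) (h : Half U U' τ w) {z z₀ z₁ : K} (hz0 : z ≠ 0)
    (hz0' : Fx U z₀) (hz1' : Fx U z₁) (ez : z = z₀ + z₁ * w) : z₀ ^ 2 - w ^ 2 * z₁ ^ 2 ≠ 0 := by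
  have e1 : z₀ ^ 2 - w ^ 2 * z₁ ^ 2 = z * (z₀ - z₁ * w) := by rw [ez]; ring
  rw [e1]
  refine mul_ne_zero hz0 ?_
  intro h0
  obtain ⟨h3, h4⟩ := h.uniq h2 (A := z₀) (B := -z₁) hz0' (neg_mem (S := Subfield K)
    (s := FS U) hz1') (by linear_combination h0)
  apply hz0
  rw [ez, h3, neg_eq_zero.1 h4]
  ring

theorem t_ST1 (hCH : S_CH) (hLG : S_LG) : S_ST1 := by
  intro G K S _ _ _ _ U U' τ w h2 h hA x y hx hy hx0 hy0 hl
  have hle := h.1
  have hw := h.2.2.2.2.1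
  have hwU := h.2.2.2.2.2.1
  have hwτ := h.2.2.2.2.2.2
  have haU : Fx U (w ^ 2) := by
    refine h.fx (fun u hu => by rw [smul_pow', hwU u hu]) ?_
    rw [smul_pow', hwτ]
    ring
  have hpt := loc_sp hl
  suffices hsp : Sp (FS U' : Subfield K) x y by
    obtain ⟨r, hr, t, ht, e⟩ := hsp
    exact ⟨r, t, hr, ht, e⟩
  have hxy : Fx U' (x * y) := mul_mem (s := (FS U' : Subfield K)) hx hy
  have hxy0 : x * y ≠ 0 := mul_ne_zero hx0 hy0
  obtain ⟨x₀, x₁, hx₀, hx₁, ex⟩ := h.dec h2 hx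
  obtain ⟨y₀, y₁, hy₀, hy₁, ey⟩ := h.dec h2 hy
  obtain ⟨z₀, z₁, hz₀, hz₁, ez⟩ := h.dec h2 hxy
  by_cases hx1 : x₁ = 0
  · have hxU : Fx U x := by rw [ex, hx1, zero_mul, add_zero]; exact hx₀
    exact stepB h2 h hA hCH hLG hxU hy hx0 hy0 hpt
  by_cases hy1 : y₁ = 0
  · have hyU : Fx U y := by rw [ey, hy1, zero_mul, add_zero]; exact hy₀
    refine (stepB h2 h hA hCH hLG hyU hx hy0 hx0 fun s => ?_).symm h2 hy hx0
    exact (hpt s).symm h2 (FS_mono inf_le_left hx) hy0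
  -- `-x` is a norm
  have hnx : ∀ E : Subfield K, x ∈ E → Sp E x (-x) := fun E hE =>
    ⟨0, zero_mem E, 1, one_mem E, by ring⟩
  by_cases hz1 : z₁ = 0
  · have hzU : Fx U (-(x * y)) := by
      rw [ez, hz1, zero_mul, add_zero]
      exact neg_mem (S := Subfield K) (s := FS U) hz₀
    have h3 : Sp (FS U' : Subfield K) (-(x * y)) x := by
      refine stepB h2 h hA hCH hLG hzU hx (neg_ne_zero.2 hxy0) hx0 fun s => ?_
      have hxs : x ∈ (FS (U' ⊓ MulAction.stabilizer G s) : Subfield K) := FS_mono inf_le_left hx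
      refine Sp.symm h2 hxs (neg_ne_zero.2 hxy0) ?_
      have := (hnx _ hxs).mul hxs (hpt s)
      rwa [neg_mul] at this
    have h4 := h3.symm h2 (neg_mem (s := (FS U' : Subfield K)) hxy) hx0
    have h5 := ((hnx _ hx).mul hx h4).scale (inv_mem (s := (FS U' : Subfield K)) hx)
    have e1 : -x * -(x * y) * x⁻¹ ^ 2 = y := by field_simp
    rwa [e1] at h5
  -- the transfer form
  obtain ⟨r, t, hr, ht, e⟩ := hl
  have hv' : Ev U' (fun s => x * t s) := fun u hu s => by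
    change x * t (u • s) = u • (x * t s)
    rw [smul_mul', hx u hu, ht u hu]
  obtain ⟨v₀, v₁, hv0, hv1, ev⟩ := h.dec_fun h2 hv'
  obtain ⟨r₀, r₁, hr0, hr1, er⟩ := h.dec_fun h2 hr
  have hNx := h.norm_ne h2 hx0 hx₀ hx₁ ex
  have hNy := h.norm_ne h2 hy0 hy₀ hy₁ ey
  have hNz := h.norm_ne h2 hxy0 hz₀ hz₁ ez
  have hz : (x₀ + x₁ * w) * (y₀ + y₁ * w) = z₀ + z₁ * w := by rw [← ex, ← ey, ez]
  have key : ∀ s, (x₁ * (y₀ ^ 2 + w ^ 2 * y₁ ^ 2) + 2 * (x₀ * (y₀ * y₁))) +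
      (y₁ * (v₀ s ^ 2 + w ^ 2 * v₁ s ^ 2) + 2 * (y₀ * (v₀ s * v₁ s))) -
      (z₁ * (r₀ s ^ 2 + w ^ 2 * r₁ s ^ 2) + 2 * (z₀ * (r₀ s * r₁ s))) = 0 := by
    have hcomb : ∀ s, ((x₀ * (y₀ ^ 2 + w ^ 2 * y₁ ^ 2) + 2 * (w ^ 2 * (x₁ * (y₀ * y₁)))) +
      (y₀ * (v₀ s ^ 2 + w ^ 2 * v₁ s ^ 2) + 2 * (w ^ 2 * (y₁ * (v₀ s * v₁ s)))) -
      (z₀ * (r₀ s ^ 2 + w ^ 2 * r₁ s ^ 2) + 2 * (w ^ 2 * (z₁ * (r₀ s * r₁ s))))) +
      ((x₁ * (y₀ ^ 2 + w ^ 2 * y₁ ^ 2) + 2 * (x₀ * (y₀ * y₁))) +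
      (y₁ * (v₀ s ^ 2 + w ^ 2 * v₁ s ^ 2) + 2 * (y₀ * (v₀ s * v₁ s))) -
      (z₁ * (r₀ s ^ 2 + w ^ 2 * r₁ s ^ 2) + 2 * (z₀ * (r₀ s * r₁ s)))) * w = 0 := by
      intro s
      have h3 : x * y ^ 2 + y * (x * t s) ^ 2 - x * y * r s ^ 2 = 0 := by
        linear_combination x * y * e s
      have h4 : (x₀ + x₁ * w) * (y₀ + y₁ * w) ^ 2 + (y₀ + y₁ * w) * (v₀ s + v₁ s * w) ^ 2 -
          (z₀ + z₁ * w) * (r₀ s + r₁ s * w) ^ 2 = 0 := by
        rw [← ev s, ← er s, ← ez, ← ex, ← ey]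
        exact h3
      linear_combination h4
    have h2f : ∀ u : G, u • (2 : K) = 2 := fun u => by
      rw [show (2 : K) = 1 + 1 by norm_num, smul_add, smul_one]
    have hw2 : ∀ u ∈ U, (u • w) ^ 2 = w ^ 2 := by
      intro u hu
      have := haU u hu
      rwa [smul_pow'] at this
    intro s
    refine (h.uniq_fun h2 ?_ ?_ hcomb s).2
    · intro u hu s
      simp only [smul_sub, smul_add, smul_mul', smul_pow', hr0 u hu, hr1 u hu, hv0 u hu, hv1 u hu,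
        hx₀ u hu, hx₁ u hu, hy₀ u hu, hy₁ u hu, hz₀ u hu, hz₁ u hu, h2f, hw2 u hu]
    · intro u hu s
      simp only [smul_sub, smul_add, smul_mul', smul_pow', hr0 u hu, hr1 u hu, hv0 u hu, hv1 u hu,
        hx₀ u hu, hx₁ u hu, hy₀ u hu, hy₁ u hu, hz₀ u hu, hz₁ u hu, h2f, hw2 u hu]
  set Y : S → Fin 6 → K := fun s => ![x₁ * y₀ + x₀ * y₁, y₁, y₁ * v₀ s + y₀ * v₁ s, v₁ s,
    z₁ * r₀ s + z₀ * r₁ s, r₁ s] with hY
  have hE := (FS U : Subfield K)
  obtain ⟨V, hV0, hVU, hV⟩ := hLG G K S U h2 hA 6 (by norm_num)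
    ![x₁⁻¹, -((x₀ ^ 2 - w ^ 2 * x₁ ^ 2) * x₁⁻¹), y₁⁻¹, -((y₀ ^ 2 - w ^ 2 * y₁ ^ 2) * y₁⁻¹),
      -z₁⁻¹, (z₀ ^ 2 - w ^ 2 * z₁ ^ 2) * z₁⁻¹] (by
      have hN : ∀ a b : K, Fx U a → Fx U b → Fx U ((a ^ 2 - w ^ 2 * b ^ 2) * b⁻¹) := by
        intro a b ha hb
        exact mul_mem (s := (FS U : Subfield K)) (sub_mem (pow_mem ha 2)
          (mul_mem haU (pow_mem hb 2))) (inv_mem hb)
      intro i
      fin_cases i
      · exact ⟨inv_mem (s := (FS U : Subfield K)) hx₁, inv_ne_zero hx1⟩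
      · exact ⟨neg_mem (s := (FS U : Subfield K)) (hN _ _ hx₀ hx₁),
          neg_ne_zero.2 (mul_ne_zero hNx (inv_ne_zero hx1))⟩
      · exact ⟨inv_mem (s := (FS U : Subfield K)) hy₁, inv_ne_zero hy1⟩
      · exact ⟨neg_mem (s := (FS U : Subfield K)) (hN _ _ hy₀ hy₁),
          neg_ne_zero.2 (mul_ne_zero hNy (inv_ne_zero hy1))⟩
      · exact ⟨neg_mem (s := (FS U : Subfield K)) (inv_mem (s := (FS U : Subfield K)) hz₁),
          neg_ne_zero.2 (inv_ne_zero hz1)⟩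
      · exact ⟨hN _ _ hz₀ hz₁, mul_ne_zero hNz (inv_ne_zero hz1)⟩)
    Y (by
      intro i u hu s
      have hYu : Y (u • s) = fun i => u • Y s i := by
        funext j
        fin_cases j
        · change x₁ * y₀ + x₀ * y₁ = u • (x₁ * y₀ + x₀ * y₁)
          rw [smul_add, smul_mul', smul_mul', hx₁ u hu, hy₀ u hu, hx₀ u hu, hy₁ u hu]
        · exact (hy₁ u hu).symm
        · change y₁ * v₀ (u • s) + y₀ * v₁ (u • s) = u • (y₁ * v₀ s + y₀ * v₁ s)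
          rw [smul_add, smul_mul', smul_mul', hy₁ u hu, hy₀ u hu, hv0 u hu, hv1 u hu]
        · exact hv1 u hu s
        · change z₁ * r₀ (u • s) + z₀ * r₁ (u • s) = u • (z₁ * r₀ s + z₀ * r₁ s)
          rw [smul_add, smul_mul', smul_mul', hz₁ u hu, hz₀ u hu, hr0 u hu, hr1 u hu]
        · exact hr1 u hu s
      exact congrFun hYu i)
    (by
      intro s h0
      exact hy1 (congrFun h0 1))
    (by
      intro s
      rw [Fin.sum_univ_six]
      change x₁⁻¹ * (x₁ * y₀ + x₀ * y₁) ^ 2 + -((x₀ ^ 2 - w ^ 2 * x₁ ^ 2) * x₁⁻¹) * y₁ ^ 2 +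
        y₁⁻¹ * (y₁ * v₀ s + y₀ * v₁ s) ^ 2 + -((y₀ ^ 2 - w ^ 2 * y₁ ^ 2) * y₁⁻¹) * v₁ s ^ 2 +
        -z₁⁻¹ * (z₁ * r₀ s + z₀ * r₁ s) ^ 2 + ((z₀ ^ 2 - w ^ 2 * z₁ ^ 2) * z₁⁻¹) * r₁ s ^ 2 = 0
      have k1 := tr_form (a := w ^ 2) (x₀ := x₀) hx1 y₀ y₁
      have k2 := tr_form (a := w ^ 2) (x₀ := y₀) hy1 (v₀ s) (v₁ s)
      have k3 := tr_form (a := w ^ 2) (x₀ := z₀) hz1 (r₀ s) (r₁ s)
      linear_combination key s + k1 + k2 - k3)
  clear hE
  rw [Fin.sum_univ_six] at hV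
  change x₁⁻¹ * V 0 ^ 2 + -((x₀ ^ 2 - w ^ 2 * x₁ ^ 2) * x₁⁻¹) * V 1 ^ 2 +
        y₁⁻¹ * V 2 ^ 2 + -((y₀ ^ 2 - w ^ 2 * y₁ ^ 2) * y₁⁻¹) * V 3 ^ 2 +
        -z₁⁻¹ * V 4 ^ 2 + ((z₀ ^ 2 - w ^ 2 * z₁ ^ 2) * z₁⁻¹) * V 5 ^ 2 = 0 at hV
  -- the vector
  have hsol : ∀ {x₀ x₁ a b : K}, Fx U x₀ → Fx U x₁ → x₁ ≠ 0 → Fx U a → Fx U b →
      ∃ c, Fx U c ∧ a = x₁ * c + x₀ * b := by
    intro x₀ x₁ a b h0 h1 h3 h4 h5
    refine ⟨(a - x₀ * b) / x₁, ?_, ?_⟩
    · have h6 : a - x₀ * b ∈ (FS U : Subfield K) := sub_mem h4 (mul_mem h0 h5)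
      have h7 : x₁ ∈ (FS U : Subfield K) := h1
      exact div_mem h6 h7
    · field_simp
      ring
  obtain ⟨c₀, hc₀, ec⟩ := hsol hx₀ hx₁ hx1 (hVU 0) (hVU 1)
  obtain ⟨d₀, hd₀, ed⟩ := hsol hy₀ hy₁ hy1 (hVU 2) (hVU 3)
  obtain ⟨b₀, hb₀, eb⟩ := hsol hz₀ hz₁ hz1 (hVU 4) (hVU 5)
  have hV' : (x₁ * (c₀ ^ 2 + w ^ 2 * V 1 ^ 2) + 2 * (x₀ * (c₀ * V 1))) +
      (y₁ * (d₀ ^ 2 + w ^ 2 * V 3 ^ 2) + 2 * (y₀ * (d₀ * V 3))) -
      (z₁ * (b₀ ^ 2 + w ^ 2 * V 5 ^ 2) + 2 * (z₀ * (b₀ * V 5))) = 0 := by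
    rw [ec, ed, eb] at hV
    have k1 := tr_form (a := w ^ 2) (x₀ := x₀) hx1 c₀ (V 1)
    have k2 := tr_form (a := w ^ 2) (x₀ := y₀) hy1 d₀ (V 3)
    have k3 := tr_form (a := w ^ 2) (x₀ := z₀) hz1 b₀ (V 5)
    linear_combination hV - k1 - k2 + k3
  have hmem : ∀ {a b : K}, Fx U a → Fx U b → a + b * w ∈ (FS U' : Subfield K) := fun ha hb =>
    add_mem (FS_mono hle ha) (mul_mem (FS_mono hle hb) hwU)
  have hne : ¬ (c₀ + V 1 * w = 0 ∧ d₀ + V 3 * w = 0 ∧ b₀ + V 5 * w = 0) := by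
    rintro ⟨a1, a2, a3⟩
    obtain ⟨b1, b1'⟩ := h.uniq h2 hc₀ (hVU 1) a1
    obtain ⟨b2, b2'⟩ := h.uniq h2 hd₀ (hVU 3) a2
    obtain ⟨b3, b3'⟩ := h.uniq h2 hb₀ (hVU 5) a3
    rw [b1, b1', mul_zero, mul_zero, add_zero] at ec
    rw [b2, b2', mul_zero, mul_zero, add_zero] at ed
    rw [b3, b3', mul_zero, mul_zero, add_zero] at eb
    apply hV0
    funext i
    fin_cases i
    · exact ec
    · exact b1'
    · exact ed
    · exact b2'
    · exact eb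
    · exact b3'
  rcases stepA h2 (E₀ := FS U') hx hy (hmem hc₀ (hVU 1)) (hmem hd₀ (hVU 3)) (hmem hb₀ (hVU 5))
    hx0 hy0 hne rfl with h3 | h3
  · exact h3
  · obtain ⟨hF0, z, hz', hz0, hE⟩ := h3
    have hFU : Fx U (x * (c₀ + V 1 * w) ^ 2 + y * (d₀ + V 3 * w) ^ 2 -
        x * y * (b₀ + V 5 * w) ^ 2) := by
      have e3 : x * (c₀ + V 1 * w) ^ 2 + y * (d₀ + V 3 * w) ^ 2 - x * y * (b₀ + V 5 * w) ^ 2 =
          (x₀ * (c₀ ^ 2 + w ^ 2 * V 1 ^ 2) + 2 * (w ^ 2 * (x₁ * (c₀ * V 1)))) +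
          (y₀ * (d₀ ^ 2 + w ^ 2 * V 3 ^ 2) + 2 * (w ^ 2 * (y₁ * (d₀ * V 3)))) -
          (z₀ * (b₀ ^ 2 + w ^ 2 * V 5 ^ 2) + 2 * (w ^ 2 * (z₁ * (b₀ * V 5)))) := by
        rw [ez, ex, ey]
        linear_combination w * hV'
      rw [e3]
      have h2E : (2 : K) ∈ (FS U : Subfield K) := ofNat_mem _ 2
      have hq : ∀ a b c d : K, a ∈ (FS U : Subfield K) → b ∈ (FS U : Subfield K) →
          c ∈ (FS U : Subfield K) → d ∈ (FS U : Subfield K) →
          a * (c ^ 2 + w ^ 2 * d ^ 2) + 2 * (w ^ 2 * (b * (c * d))) ∈ (FS U : Subfield K) := by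
        intro a b c d ha hb hc hd
        exact add_mem (mul_mem ha (add_mem (pow_mem hc 2) (mul_mem haU (pow_mem hd 2))))
          (mul_mem h2E (mul_mem haU (mul_mem hb (mul_mem hc hd))))
      exact sub_mem (add_mem (hq _ _ _ _ hx₀ hx₁ hc₀ (hVU 1))
        (hq _ _ _ _ hy₀ hy₁ hd₀ (hVU 3))) (hq _ _ _ _ hz₀ hz₁ hb₀ (hVU 5))
    rw [hE _ le_rfl]
    exact stepB h2 h hA hCH hLG hFU hz' hF0 hz0 fun s =>
      (hE _ (FS_mono inf_le_left)).1 (hpt s)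

end Act

end Pool.Agent.V7H55.FP
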