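import Mathlib
import Pool.Agent.V7H31.FP.AS
import Pool.Agent.V7H33.FP.SM
import Pool.Agent.V7H34.FP.FR3
import Pool.Agent.V7H39.FP.C4
import Pool.Agent.V7H55.FP.Conv
import Pool.Agent.V7H55.FP.Rad
import Pool.Agent.V7H55.FP.ST1
import Pool.Agent.V7H66.FP.C1
import Pool.Agent.V7H66.FP.FR2
import Pool.Agent.V7H66.FP.LI
import Pool.Agent.V7H68.FP.CH
import Pool.Agent.V7H68.FP.G1
import Pool.Agent.V7H68.FP.LG
import Pool.Agent.V7H70.FP.D1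
import Pool.Agent.V7H70.FP.D2
import Pool.Agent.V7H70.FP.KU
import Pool.Agent.V7H70.FP.ZP
import Pool.Agent.V7H72.FP.C3
import Pool.Agent.V7H72.FP.KD
import Pool.Agent.V7H79.FP.Q4
import Pool.Agent.V7H88.FP.BA
import Pool.Agent.V7H88.FP.LA
import Pool.Agent.V7H88.FP.SEP
import Pool.Agent.V7H88.FP.ST2

set_option autoImplicit false

/-!
# Free products, `p = 2`: all pieces
-/

namespace Pool.Agent.V7H55.FP

theorem all_LI : S_LI :=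
  Pool.Agent.V7H66.FP.t_LI Pool.Agent.V7H68.FP.t_CH Pool.Agent.V7H70.FP.t_KU
    Pool.Agent.V7H70.FP.t_D1 Pool.Agent.V7H70.FP.t_D2
    (Pool.Agent.V7H68.FP.t_G1 Pool.Agent.V7H70.FP.t_KU)
    (t_ST1 Pool.Agent.V7H68.FP.t_CH (Pool.Agent.V7H68.FP.t_LG Pool.Agent.V7H68.FP.t_CH))
    Pool.Agent.V7H88.FP.t_ST2

theorem all_FR2 : S_FR2 := Pool.Agent.V7H66.FP.t_FR2 Pool.Agent.V7H70.FP.t_KU all_LI

open Pool.Agent.V7H55.ET Pool.Agent.V7H55.ET2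
open Pool.Agent.Y920.EP (pwG)
open Pool.Agent.Results.MP_600e55_nt.SymbolPartitions (IsMaximalPExtension IsFreeProduct)

theorem all_rad {F : Type} [Field F] (h2 : (2 : F) ≠ 0)
    (hfin : (pwG F 2).index ≠ 0)
    {T : Subgroup Fˣ} (hT : pwG F 2 ≤ T) (hadm : ∀ O : ValuationSubring F, ¬ Adm 2 T O)
    (hcone : ∀ P : Subgroup Fˣ, IsCone P → ¬ T ≤ P) {e : Fˣ → Fˣ → ZMod 2} (he : e ∈ Sym 2 T)
    (hne : e ≠ 0) {R : Subgroup Fˣ} (hR : ∀ x, x ∈ R ↔ ∀ y, e x y = 0) :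
    8 ≤ R.index ∧ (-1 ∈ R → 16 ≤ R.index) :=
  rad_bound Pool.Agent.V7H33.FP.t_SM Pool.Agent.V7H79.FP.t_Q4 h2 hfin hT hadm hcone he hne hR

theorem all_main {F : Type} [Field F] {K : IntermediateField F (AlgebraicClosure F)}
    {ζ : F} (hζ : IsPrimitiveRoot ζ 2) (hfin : (pwG F 2).index ≠ 0) (s : Finset (Subgroup Fˣ))
    (hs : ∀ B, B ∈ s ↔ B ∈ MG F 2) (hT : ∀ e ∈ Sym 2 (pwG F 2 ⊔ ⨆ B ∈ s, perp 2 B), e = 0)
    (hK : IsMaximalPExtension 2 K) :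
    ∃ (m : ℕ) (H : Fin m → Subgroup (↥K ≃ₐ[F] ↥K)),
      (∀ i, IsClosed (H i : Set (↥K ≃ₐ[F] ↥K))) ∧ IsFreeProduct 2 H ∧
      ∀ i, Nonempty (H i ≃ₜ* Multiplicative (PadicInt 2)) ∨
        ∃ B ∈ MG F 2, Loc B (H i) :=
  fp_main Pool.Agent.V7H88.FP.t_BA Pool.Agent.V7H88.FP.t_SEP Pool.Agent.V7H72.FP.t_KD Pool.Agent.V7H88.FP.t_LA
    Pool.Agent.V7H31.FP.t_AS Pool.Agent.V7H70.FP.t_ZP all_FR2 Pool.Agent.V7H34.FP.t_FR3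
    hζ hfin s hs hT hK

theorem all_conv {F : Type} [Field F] {K : IntermediateField F (AlgebraicClosure F)}
    {ζ : F} (hζ : IsPrimitiveRoot ζ 2) (hfin : (pwG F 2).index ≠ 0) {T : Subgroup Fˣ}
    (hTperp : ∀ B ∈ MG F 2, perp 2 B ≤ T) (hK : IsMaximalPExtension 2 K)
    {m : ℕ} (H : Fin m → Subgroup (↥K ≃ₐ[F] ↥K)) (hHcl : ∀ i, IsClosed (H i : Set (↥K ≃ₐ[F] ↥K)))
    (hfree : FreeP H) (hty : ∀ i, Nonempty (H i ≃ₜ* Multiplicative (PadicInt 2)) ∨ TDec (H i) ∨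
      Nat.card (H i) = 2) {c : Fˣ → Fˣ → ZMod 2} (hc : c ∈ Sym 2 T) : c = 0 :=
  conv_main Pool.Agent.V7H66.FP.t_C1 Pool.Agent.V7H72.FP.t_C3 Pool.Agent.V7H39.FP.t_C4 Pool.Agent.V7H31.FP.t_AS hζ hfin hTperp hK H hHcl hfree hty hc

end Pool.Agent.V7H55.FP
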