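import Mathlib
import Pool.Agent.V7H55.FP.SM8

set_option autoImplicit false

/-!
# Symbols with a radical of index 8: the symbol of `(-1, -1)` is not zero
-/

namespace Pool.Agent.V7H55.FP

open Pool.Agent.V7H55.ET (Adm Sym Sym.van Sym.isSymbol)
open Pool.Agent.V7H55.ET2 (IsCone anti' van_right' neg_right)
open Pool.Agent.Y920.EP (pwG)

lemma z2_span : ∀ a1 a2 a3 b1 b2 : ZMod 2, ∃ i ∈ Finset.range 2, ∃ j ∈ Finset.range 2,
    ∃ k ∈ Finset.range 2, (a1, a2, a3) = i • ((0 : ZMod 2), (1 : ZMod 2), (0 : ZMod 2)) +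
      j • ((1 : ZMod 2), (1 : ZMod 2), (0 : ZMod 2)) + k • (b1, b2, (1 : ZMod 2)) := by
  decide

theorem rad8 {F : Type} [Field F] {T : Subgroup Fˣ} {e : Fˣ → Fˣ → ZMod 2} (he : e ∈ Sym 2 T)
    {R : Subgroup Fˣ} (hR : ∀ x, x ∈ R ↔ ∀ y, e x y = 0) (h8 : R.index = 8)
    (h0 : e (-1) (-1) = 0) : -1 ∈ R := by
  classical
  have hfact : Fact (Nat.Prime 2) := ⟨Nat.prime_two⟩
  by_contra hneg
  have hself : ∀ z, e z z = e z (-1) := by
    intro z
    have h3 : e z (-1 * -z) = e z (-1) + e z (-z) := he.2.1 z (-1) (-z)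
    rw [neg_right he, add_zero, neg_one_mul, neg_neg] at h3
    exact h3
  have hsymm : ∀ a b, e b a = e a b := by
    intro a b
    rw [anti' he a b, ZMod.neg_eq_self_mod_two]
  have hone : ∀ x, e x 1 = 0 := by
    intro x
    have h3 : e x (1 * 1) = e x 1 + e x 1 := he.2.1 x 1 1
    rw [mul_one] at h3
    simpa using h3
  obtain ⟨z, hz⟩ : ∃ z, e (-1) z ≠ 0 := by
    by_contra hc
    push Not at hc
    exact hneg ((hR _).2 hc)
  have hz1 := (z2_cases _).resolve_left hz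
  -- the first homomorphism
  let φ : Fˣ →* Multiplicative (ZMod 2 × ZMod 2) :=
    { toFun := fun n => Multiplicative.ofAdd (e (-1) n, e z n)
      map_one' := by
        rw [hone, hone]
        rfl
      map_mul' := by
        intro a b
        rw [he.2.1, he.2.1]
        rfl }
  have hφ : ∀ n, n ∈ φ.ker ↔ e (-1) n = 0 ∧ e z n = 0 := by
    intro n
    rw [MonoidHom.mem_ker]
    change Multiplicative.ofAdd (e (-1) n, e z n) = Multiplicative.ofAdd (0, 0) ↔ _
    rw [EmbeddingLike.apply_eq_iff_eq, Prod.mk.injEq]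
  obtain ⟨n, hn1, hn2, hn3⟩ : ∃ n, e (-1) n = 0 ∧ e z n = 0 ∧ n ∉ R := by
    by_contra hc
    push Not at hc
    have h3 : φ.ker ≤ R := fun n hn => hc n ((hφ n).1 hn).1 ((hφ n).1 hn).2
    have h5 := Subgroup.index_dvd_of_le h3
    have h6 : φ.ker.index ≤ 4 := by
      rw [Subgroup.index_ker]
      have h7 : Nat.card φ.range ≤ Nat.card (Multiplicative (ZMod 2 × ZMod 2)) :=
        Nat.card_le_card_of_injective _ Subtype.val_injective
      have h8' : Nat.card (Multiplicative (ZMod 2 × ZMod 2)) = 4 := by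
        change Nat.card (ZMod 2 × ZMod 2) = 4
        rw [Nat.card_prod, Nat.card_zmod]
      omega
    have h7 : 0 < φ.ker.index := by
      rw [Subgroup.index_ker]
      exact Nat.card_pos
    rw [h8] at h5
    have := Nat.le_of_dvd h7 h5
    omega
  obtain ⟨w, hw⟩ : ∃ w, e n w ≠ 0 := by
    by_contra hc
    push Not at hc
    exact hn3 ((hR _).2 hc)
  have hw1 := (z2_cases _).resolve_left hw
  -- the second homomorphism
  let ψ : Fˣ →* Multiplicative (ZMod 2 × ZMod 2 × ZMod 2) :=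
    { toFun := fun m => Multiplicative.ofAdd (e (-1) m, e z m, e n m)
      map_one' := by
        rw [hone, hone, hone]
        rfl
      map_mul' := by
        intro a b
        rw [he.2.1, he.2.1, he.2.1]
        rfl }
  have hψ : ∀ m, m ∈ ψ.ker ↔ e (-1) m = 0 ∧ e z m = 0 ∧ e n m = 0 := by
    intro m
    rw [MonoidHom.mem_ker]
    change Multiplicative.ofAdd (e (-1) m, e z m, e n m) = Multiplicative.ofAdd (0, 0, 0) ↔ _
    rw [EmbeddingLike.apply_eq_iff_eq, Prod.mk.injEq, Prod.mk.injEq]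
  have hψ1 : ψ (-1) = Multiplicative.ofAdd ((0 : ZMod 2), (1 : ZMod 2), (0 : ZMod 2)) := by
    change Multiplicative.ofAdd (e (-1) (-1), e z (-1), e n (-1)) = _
    rw [h0, hsymm (-1) z, hz1, hsymm (-1) n, hn1]
  have hψ2 : ψ z = Multiplicative.ofAdd ((1 : ZMod 2), (1 : ZMod 2), (0 : ZMod 2)) := by
    change Multiplicative.ofAdd (e (-1) z, e z z, e n z) = _
    rw [hz1, hself z, hsymm (-1) z, hz1, hsymm z n, hn2]
  have hψ3 : ψ w = Multiplicative.ofAdd (e (-1) w, e z w, (1 : ZMod 2)) := by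
    change Multiplicative.ofAdd (e (-1) w, e z w, e n w) = _
    rw [hw1]
  have hsur : ψ.range = ⊤ := by
    rw [eq_top_iff]
    have m1 : ψ (-1) ∈ ψ.range := ⟨_, rfl⟩
    have m2 : ψ z ∈ ψ.range := ⟨_, rfl⟩
    have m3 : ψ w ∈ ψ.range := ⟨_, rfl⟩
    rintro a -
    obtain ⟨a1, a2, a3⟩ := a
    have key : ∃ i j k : ℕ, (Multiplicative.ofAdd (a1, a2, a3) :
        Multiplicative (ZMod 2 × ZMod 2 × ZMod 2)) = ψ (-1) ^ i * ψ z ^ j * ψ w ^ k := by
      rw [hψ1, hψ2, hψ3]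
      generalize e (-1) w = b1
      generalize e z w = b2
      obtain ⟨i, -, j, -, k, -, h⟩ := z2_span a1 a2 a3 b1 b2
      refine ⟨i, j, k, ?_⟩
      rw [h]
      rfl
    obtain ⟨i, j, k, h⟩ := key
    change (Multiplicative.ofAdd (a1, a2, a3) : Multiplicative (ZMod 2 × ZMod 2 × ZMod 2)) ∈ _
    rw [h]
    exact mul_mem (mul_mem (pow_mem m1 i) (pow_mem m2 j)) (pow_mem m3 k)
  have hidx : ψ.ker.index = 8 := by
    rw [Subgroup.index_ker, hsur, Subgroup.card_top]
    change Nat.card (ZMod 2 × ZMod 2 × ZMod 2) = 8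
    rw [Nat.card_prod, Nat.card_prod, Nat.card_zmod]
  have hle : R ≤ ψ.ker := by
    intro x hx
    rw [hψ, hsymm x (-1), hsymm x z, hsymm x n]
    exact ⟨(hR x).1 hx _, (hR x).1 hx _, (hR x).1 hx _⟩
  have hrel := Subgroup.relIndex_mul_index hle
  rw [hidx, h8] at hrel
  have hrel1 : R.relIndex ψ.ker = 1 := by omega
  have hge : ψ.ker ≤ R := Subgroup.relIndex_eq_one.1 hrel1
  refine hn3 (hge ((hψ n).2 ⟨hn1, hn2, ?_⟩))
  rw [hself n, hsymm (-1) n, hn1]

end Pool.Agent.V7H55.FP
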