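import Mathlib
import Pool.Agent.V7H55.FP.Main
import Pool.Agent.V7H55.FP.Defs6

set_option autoImplicit false

/-!
# The subgroup generated by the decomposition groups, `p = 2`
-/

open IntermediateField

namespace Pool.Agent.V7H55.FP

open Pool.Agent.V7H55.ET Pool.Agent.V7H55.ET2
open Pool.Agent.Y469.EP (Tw)
open Pool.Agent.Y920.EP (pwG nmG)
open Pool.Agent.Results.MP_600e55_nt.SymbolPartitions (powers IsMaximalPExtension
  IsDecompositionGroup ConclusionOfQ1 IsFreeProduct)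

section

variable {F : Type} [Field F]

/-- approximation by orthogonal elements -/
lemma surj_perp {ζ : F} (hζ : IsPrimitiveRoot ζ 2) (hfin : (pwG F 2).index ≠ 0) {n : ℕ}
    {B : Fin n → Subgroup Fˣ} (hB : ∀ i, B i ∈ MG F 2) (hidx : ∀ i, (B i).index ≠ 2 ∨ -1 ∉ B i)
    (hinj : Function.Injective B) (f : Fin n → Fˣ) :
    ∃ v : Fin n → Fˣ, (∀ i, v i ∈ perp 2 (B i)) ∧ ∀ i, (∏ j, v j)⁻¹ * f i ∈ B i := by
  have h1 : ∀ i, ∃ v ∈ perp 2 (B i), v⁻¹ * f i ∈ B i := by
    intro i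
    have h2 : f i ∈ B i ⊔ perp 2 (B i) := by
      rw [MG.sup_perp Nat.prime_two hζ hfin (hB i)]
      trivial
    obtain ⟨b, hb, v, hv, e⟩ := Subgroup.mem_sup.1 h2
    refine ⟨v, hv, ?_⟩
    rw [← e, mul_comm b v, inv_mul_cancel_left]
    exact hb
  choose v hv hvf using h1
  refine ⟨v, hv, fun i => ?_⟩
  have h3 : (∏ j, v j) = v i * ∏ j ∈ Finset.univ.erase i, v j := by
    rw [Finset.mul_prod_erase _ _ (Finset.mem_univ i)]
  have h4 : ∏ j ∈ Finset.univ.erase i, v j ∈ B i := by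
    refine Subgroup.prod_mem _ fun j hj => ?_
    have hne : B j ≠ B i := fun h => (Finset.ne_of_mem_erase hj) (hinj h)
    exact MG.perp_le Nat.prime_two hζ (hB i) (hB j) hne (hidx i) (hv j)
  rw [h3, mul_inv, mul_comm (v i)⁻¹, mul_assoc]
  exact mul_mem (inv_mem h4) (hvf i)

/-- norms of products of orthogonal elements are determined locally -/
lemma norm_perp {K : IntermediateField F (AlgebraicClosure F)} (hSEP : S_SEP) [IsGalois F K]
    (h2K : (2 : K) ≠ 0) (hcl : ∀ x : K, ∃ y, y ^ 2 = x)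
    {ζ : F} (hζ : IsPrimitiveRoot ζ 2) (hfin : (pwG F 2).index ≠ 0)
    {n : ℕ} {B : Fin n → Subgroup Fˣ} (hB : ∀ i, B i ∈ MG F 2)
    (hidx : ∀ i, (B i).index ≠ 2 ∨ -1 ∉ B i) (hinj : Function.Injective B)
    {D : Fin n → Subgroup (↥K ≃ₐ[F] ↥K)} (hD : ∀ i, Loc (B i) (D i))
    {v v' : Fin n → Fˣ} (hv : ∀ i, v i ∈ perp 2 (B i)) (hv' : ∀ i, v' i ∈ perp 2 (B i))
    (hloc : ∀ i, ∃ r t : K, Fx (D i) r ∧ Fx (D i) t ∧
      algebraMap F K ((∏ j, v' j : Fˣ) : F) = r ^ 2 - algebraMap F K ((∏ j, v j : Fˣ) : F) * t ^ 2) :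
    ∃ r t : F, ((∏ j, v' j : Fˣ) : F) = r ^ 2 - ((∏ j, v j : Fˣ) : F) * t ^ 2 := by
  classical
  have hfact : Fact (Nat.Prime 2) := ⟨Nat.prime_two⟩
  by_contra hno
  obtain ⟨c, hc1, hc2, hc3, hcab⟩ := hSEP F K h2K hcl _ _ hno
  have hcN : c ∈ NSym 2 F := ⟨hc1, hc2, fun x _ y hy => hc3 x y (mem_nm2.1 hy)⟩
  set s : Finset (Subgroup Fˣ) := (finite_MG (F := F) (p := 2) hfin).toFinset with hs
  have hsB : ∀ B, B ∈ s ↔ B ∈ MG F 2 := fun B => by rw [hs, Set.Finite.mem_toFinset]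
  obtain ⟨d, hd1, hd2⟩ := split_all' hζ hfin s hsB hcN
  -- products
  have hone : c 1 = 0 := by
    funext y
    have h3 : c (1 * 1) y = c 1 y + c 1 y := hc1 1 1 y
    rw [mul_one] at h3
    simpa using h3
  have hprodl : ∀ (t : Finset (Fin n)) (y : Fˣ), c (∏ i ∈ t, v i) y = ∑ i ∈ t, c (v i) y := by
    intro t y
    induction t using Finset.induction_on with
    | empty =>
      rw [Finset.prod_empty, Finset.sum_empty, hone]
      rfl
    | insert a t ha ih => rw [Finset.prod_insert ha, Finset.sum_insert ha, hc1, ih]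
  have hprodr : ∀ (t : Finset (Fin n)) (x : Fˣ), c x (∏ i ∈ t, v' i) = ∑ i ∈ t, c x (v' i) := by
    intro t x
    induction t using Finset.induction_on with
    | empty =>
      rw [Finset.prod_empty, Finset.sum_empty]
      have h3 : c x (1 * 1) = c x 1 + c x 1 := hc2 x 1 1
      rw [mul_one] at h3
      simpa using h3
    | insert a t ha ih => rw [Finset.prod_insert ha, Finset.sum_insert ha, hc2, ih]
  -- mixed terms
  have hmix : ∀ i j, i ≠ j → c (v i) (v' j) = 0 := by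
    intro i j hij
    have hne : B i ≠ B j := fun h => hij (hinj h)
    have h3 : v i ∈ B j := MG.perp_le Nat.prime_two hζ (hB j) (hB i) hne (hidx j) (hv i)
    by_cases h4 : v i ∈ pwG F 2
    · exact bi_pow_left hc1 h4 _
    · exact hcN.2.2 _ h4 _ (mem_perp.1 (hv' j) _ h3 h4)
  -- pure terms
  have hpure : ∀ i, c (v i) (v' i) = 0 := by
    intro i
    have h3 : ∀ C ∈ s, C ≠ B i → d C (v i) (v' i) = 0 := by
      intro C hC hne
      exact Sym_of_MG hζ ((hsB C).1 hC) (hB i) hne.symm (hd1 C hC) (hv i) _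
    have h4 : (c - ∑ C ∈ s, d C) (v i) (v' i) = 0 := by
      refine Sym.van hd2 ?_ _
      exact Subgroup.mem_sup_right ((le_iSup₂_of_le (B i) ((hsB _).2 (hB i)) le_rfl :
        perp 2 (B i) ≤ _) (hv i))
    have h5 : c (v i) (v' i) = ∑ C ∈ s, d C (v i) (v' i) := by
      have h6 : (c - ∑ C ∈ s, d C) (v i) (v' i) = c (v i) (v' i) - ∑ C ∈ s, d C (v i) (v' i) := by
        simp only [Pi.sub_apply, Finset.sum_apply]
      rw [h6, sub_eq_zero] at h4
      exact h4
    rw [h5, Finset.sum_eq_single (B i) (fun C hC hne => h3 C hC hne)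
      (fun h => absurd ((hsB _).2 (hB i)) h)]
    -- the symbol `d (B i)`
    have hdi := hd1 _ ((hsB _).2 (hB i))
    have h7 : d (B i) (∏ j, v j) (∏ j, v' j) = 0 := (hD i).sym _ hdi _ _ (hloc i)
    have h8 : ∀ w : Fin n → Fˣ, (∀ j, w j ∈ perp 2 (B j)) → (w i)⁻¹ * (∏ j, w j) ∈ B i := by
      intro w hw
      have h9 : (∏ j, w j) = w i * ∏ j ∈ Finset.univ.erase i, w j := by
        rw [Finset.mul_prod_erase _ _ (Finset.mem_univ i)]
      rw [h9, inv_mul_cancel_left]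
      refine Subgroup.prod_mem _ fun j hj => ?_
      have hne : B j ≠ B i := fun h => (Finset.ne_of_mem_erase hj) (hinj h)
      exact MG.perp_le Nat.prime_two hζ (hB i) (hB j) hne (hidx i) (hw j)
    rw [← congr' hdi (h8 v hv) (h8 v' hv')]
    exact h7
  apply hcab
  rw [hprodl]
  refine Finset.sum_eq_zero fun i _ => ?_
  rw [hprodr]
  refine Finset.sum_eq_zero fun j _ => ?_
  by_cases hij : i = j
  · subst hij
    exact hpure i
  · exact hmix i j hij

lemma fx_alg' {K : IntermediateField F (AlgebraicClosure F)} (a : F) (u : ↥K ≃ₐ[F] ↥K) :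
    u • algebraMap F K a = algebraMap F K a := u.commutes a

/-- elements fixed by the `D i` are fixed by the closed subgroup which they generate -/
lemma fx_closure {K : IntermediateField F (AlgebraicClosure F)} [IsGalois F K] {n : ℕ}
    {D : Fin n → Subgroup (↥K ≃ₐ[F] ↥K)} {y : K} (hy : ∀ i, Fx (D i) y) :
    Fx (⨆ i, D i).topologicalClosure y := by
  have hint : IsIntegral F y := Algebra.IsIntegral.isIntegral y
  have hfd : FiniteDimensional F F⟮y⟯ := IntermediateField.adjoin.finiteDimensional hint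
  have h1 : IsOpen ((F⟮y⟯.fixingSubgroup : Subgroup (↥K ≃ₐ[F] ↥K)) : Set (↥K ≃ₐ[F] ↥K)) :=
    IntermediateField.fixingSubgroup_isOpen _
  have h2 : F⟮y⟯.fixingSubgroup ≤ MulAction.stabilizer (↥K ≃ₐ[F] ↥K) y := by
    intro g hg
    rw [IntermediateField.mem_fixingSubgroup_iff] at hg
    exact hg y (IntermediateField.mem_adjoin_simple_self F y)
  have h3 : IsOpen (MulAction.stabilizer (↥K ≃ₐ[F] ↥K) y : Set (↥K ≃ₐ[F] ↥K)) :=
    Subgroup.isOpen_mono h2 h1
  have h4 : (⨆ i, D i) ≤ MulAction.stabilizer (↥K ≃ₐ[F] ↥K) y :=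
    iSup_le fun i g hg => hy i g hg
  intro g hg
  exact Subgroup.topologicalClosure_minimal _ h4 (Subgroup.isClosed_of_isOpen _ h3) hg

theorem sub_main {K : IntermediateField F (AlgebraicClosure F)} (hSEP : S_SEP) (hSUB : S_SUB)
    {ζ : F} (hζ : IsPrimitiveRoot ζ 2) (hfin : (pwG F 2).index ≠ 0)
    (hK : IsMaximalPExtension 2 K) :
    ∃ (n : ℕ) (B : Fin n → Subgroup Fˣ) (D : Fin n → Subgroup (↥K ≃ₐ[F] ↥K)),
      Function.Injective B ∧ (∀ C, (∃ i, B i = C) ↔ C ∈ MG F 2 ∧ (C.index ≠ 2 ∨ -1 ∉ C)) ∧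
      (∀ i, Loc (B i) (D i)) ∧ ∃ hle : ∀ i, D i ≤ (⨆ i, D i).topologicalClosure,
      ∀ (P : Type) [Group P] [Finite P], (∃ k : ℕ, Nat.card P = 2 ^ k) →
      ∀ φ : (i : Fin n) → (D i →* P), (∀ i, IsOpen ((φ i).ker : Set (D i))) →
        ∃! ψ : ((⨆ i, D i).topologicalClosure : Subgroup (↥K ≃ₐ[F] ↥K)) →* P,
          IsOpen (ψ.ker : Set ((⨆ i, D i).topologicalClosure : Subgroup (↥K ≃ₐ[F] ↥K))) ∧
          ∀ i, ∀ x : D i, ψ (Subgroup.inclusion (hle i) x) = φ i x := by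
  classical
  have hfact : Fact (Nat.Prime 2) := ⟨Nat.prime_two⟩
  have hp : Nat.Prime 2 := Nat.prime_two
  obtain ⟨hgal, hL, -⟩ := Pool.Agent.Y469.EP.t_MAX' 2 hp F ⟨_, hζ⟩ K hK
  have hcl := closed_root hp hζ K hK
  have h2F : (2 : F) ≠ 0 := by
    have : NeZero 2 := ⟨two_ne_zero⟩
    exact_mod_cast hζ.neZero'.ne
  have h2K : (2 : K) ≠ 0 := by
    intro h
    apply h2F
    apply (algebraMap F K).injective
    rw [map_ofNat, h, map_zero]
  set s : Finset (Subgroup Fˣ) := (finite_MG (F := F) (p := 2) hfin).toFinset with hs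
  have hsB : ∀ B, B ∈ s ↔ B ∈ MG F 2 := fun B => by rw [hs, Set.Finite.mem_toFinset]
  set N : Finset (Subgroup Fˣ) := s.filter fun B => B.index ≠ 2 ∨ -1 ∉ B with hN
  set n := N.card with hn
  set B : Fin n → Subgroup Fˣ := fun i => (N.equivFin.symm i).1 with hBdef
  have hBN : ∀ i, B i ∈ N := fun i => (N.equivFin.symm i).2
  have hB : ∀ i, B i ∈ MG F 2 := fun i => (hsB _).1 (Finset.mem_filter.1 (hBN i)).1
  have hidx : ∀ i, (B i).index ≠ 2 ∨ -1 ∉ B i := fun i => (Finset.mem_filter.1 (hBN i)).2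
  have hinj : Function.Injective B := by
    intro i j h
    exact N.equivFin.symm.injective (Subtype.ext h)
  have hex : ∀ B' ∈ MG F 2, B'.index ≠ 2 ∨ -1 ∉ B' → ∃ i, B i = B' := by
    intro B' h1 h3
    have h4 : B' ∈ N := Finset.mem_filter.2 ⟨(hsB _).2 h1, h3⟩
    refine ⟨N.equivFin ⟨B', h4⟩, ?_⟩
    simp [hBdef]
  have hloc := fun i => exists_loc hζ (hB i) K hK
  choose D hD using hloc
  have hle : ∀ i, D i ≤ (⨆ i, D i).topologicalClosure := fun i =>
    (le_iSup D i).trans (Subgroup.le_topologicalClosure _)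
  refine ⟨n, B, D, hinj, ?_, hD, hle, ?_⟩
  · intro C
    constructor
    · rintro ⟨i, rfl⟩
      exact ⟨hB i, hidx i⟩
    · rintro ⟨h1, h3⟩
      exact hex C h1 h3
  set H := (⨆ i, D i).topologicalClosure with hH
  have hfx : ∀ y : K, (∀ i, Fx (D i) y) → Fx H y := fun y hy => fx_closure hy
  have hfx' : ∀ {y : K}, Fx H y → ∀ i, Fx (D i) y := fun h i u hu => h u (hle i hu)
  have hq : ∀ {f g : Fˣ} {q : K}, q ^ 2 = algebraMap F K ((g⁻¹ * f : Fˣ) : F) → q ≠ 0 ∧
      algebraMap F K f = algebraMap F K g * q ^ 2 := by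
    intro f g q h
    have hgK : algebraMap F K g ≠ 0 := (map_ne_zero _).2 g.ne_zero
    have hfK : algebraMap F K f ≠ 0 := (map_ne_zero _).2 f.ne_zero
    rw [Units.val_mul, Units.val_inv_eq_inv_val, map_mul, map_inv₀] at h
    refine ⟨?_, ?_⟩
    · rintro rfl
      have : (0 : K) = (algebraMap F K g)⁻¹ * algebraMap F K f := by rw [← h]; ring
      exact mul_ne_zero (inv_ne_zero hgK) hfK this.symm
    · rw [h]
      field_simp
  -- the square classes of the fixed field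
  have hsq : ∀ x : K, Fx H x → x ≠ 0 → ∃ v : Fin n → Fˣ, (∀ i, v i ∈ perp 2 (B i)) ∧
      ∃ q : K, Fx H q ∧ q ≠ 0 ∧ x = algebraMap F K ((∏ j, v j : Fˣ) : F) * q ^ 2 := by
    intro x hx hx0
    have h1 := fun i => (hD i).rng x (hfx' hx i) hx0
    choose f e he he0 hfe using h1
    obtain ⟨v, hv, hvf⟩ := surj_perp hζ hfin hB hidx hinj f
    have hgK : algebraMap F K ((∏ j, v j : Fˣ) : F) ≠ 0 := (map_ne_zero _).2 (Units.ne_zero _)
    obtain ⟨q, hqx⟩ := hcl (x / algebraMap F K ((∏ j, v j : Fˣ) : F))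
    have hq0 : q ≠ 0 := by
      rintro rfl
      have : x / algebraMap F K ((∏ j, v j : Fˣ) : F) = 0 := by rw [← hqx]; ring
      exact div_ne_zero hx0 hgK this
    refine ⟨v, hv, q, hfx q fun i => ?_, hq0, ?_⟩
    · obtain ⟨w, hw, hwe⟩ := ((hD i).ker _).2 (hvf i)
      obtain ⟨hw0, hw1⟩ := hq hwe
      have h3 : q ^ 2 = (w * e i) ^ 2 := by
        rw [hqx, hfe i, hw1]
        field_simp
      have h4 : Fx (D i) (w * e i) := fun u hu => by rw [smul_mul', hw u hu, he i u hu]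
      rcases sq_eq_sq_iff_eq_or_eq_neg.1 h3 with h5 | h5
      · rw [h5]
        exact h4
      · rw [h5]
        intro u hu
        rw [smul_neg, h4 u hu]
    · rw [hqx]
      field_simp
  refine hSUB F K h2K hcl hL n D (fun i => (hD i).closed) H
    (Subgroup.isClosed_topologicalClosure _) hle hfx ?_ ?_
  · intro x y hx hy hx0 hy0 hloc
    obtain ⟨v, hv, q, hq1, hq0, hxv⟩ := hsq x hx hx0
    obtain ⟨v', hv', q', hq1', hq0', hyv⟩ := hsq y hy hy0
    obtain ⟨r, t, e⟩ := norm_perp hSEP h2K hcl hζ hfin hB hidx hinj hD hv hv' (by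
      intro i
      obtain ⟨r, t, hr, ht, e⟩ := hloc i
      have hqi := hfx' hq1 i
      have hqi' := hfx' hq1' i
      refine ⟨r / q', q * t / q', fun u hu => ?_, fun u hu => ?_, ?_⟩
      · rw [smul_div₀', hr u hu, hqi' u hu]
      · rw [smul_div₀', smul_mul', hqi u hu, ht u hu, hqi' u hu]
      · rw [hxv, hyv] at e
        field_simp
        linear_combination e)
    refine ⟨algebraMap F K r * q', algebraMap F K t * q' / q, fun u hu => ?_, fun u hu => ?_, ?_⟩
    · rw [smul_mul', hq1' u hu, fx_alg' r u]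
    · rw [smul_div₀', smul_mul', hq1' u hu, hq1 u hu, fx_alg' t u]
    · have e' := congrArg (algebraMap F K) e
      rw [map_sub, map_mul, map_pow, map_pow] at e'
      rw [hxv, hyv]
      field_simp
      linear_combination e'
  · intro z hz
    have h1 := fun i => (hD i).rng (z i) (hz i).1 (hz i).2
    choose f e he he0 hfe using h1
    obtain ⟨g, hg⟩ := surj_of hζ hfin hB hidx hinj f
    refine ⟨algebraMap F K g, fun u _ => fx_alg' (g : F) u, (map_ne_zero _).2 g.ne_zero, fun i => ?_⟩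
    obtain ⟨w, hw, hwe⟩ := ((hD i).ker _).2 (hg i)
    obtain ⟨hw0, hw1⟩ := hq hwe
    refine ⟨w * e i, fun u hu => by rw [smul_mul', hw u hu, he i u hu], mul_ne_zero hw0 (he0 i), ?_⟩
    rw [hfe i, hw1]
    ring

end

end Pool.Agent.V7H55.FP
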