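import Mathlib
import Pool.Agent.V7H34.FP.SUB
import Pool.Agent.V7H55.FP.All
import Pool.Agent.V7H55.FP.Rad8
import Pool.Agent.V7H55.FP.Sub

set_option autoImplicit false

/-!
# The subgroup generated by the decomposition groups, `p = 2`: unconditional form
-/

open IntermediateField

namespace Pool.Agent.V7H55.FP

open Pool.Agent.V7H55.ET Pool.Agent.V7H55.ET2
open Pool.Agent.Y920.EP (pwG)
open Pool.Agent.Results.MP_600e55_nt.SymbolPartitions (IsMaximalPExtension IsFreeProduct)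

theorem all_rad' {F : Type} [Field F] (h2 : (2 : F) ≠ 0)
    (hfin : (pwG F 2).index ≠ 0)
    {T : Subgroup Fˣ} (hT : pwG F 2 ≤ T) (hadm : ∀ O : ValuationSubring F, ¬ Adm 2 T O)
    (hcone : ∀ P : Subgroup Fˣ, IsCone P → ¬ T ≤ P) {e : Fˣ → Fˣ → ZMod 2} (he : e ∈ Sym 2 T)
    (hne : e ≠ 0) {R : Subgroup Fˣ} (hR : ∀ x, x ∈ R ↔ ∀ y, e x y = 0) :
    8 ≤ R.index ∧ (e (-1) (-1) = 0 → 16 ≤ R.index) := by
  obtain ⟨h8, h16⟩ := all_rad h2 hfin hT hadm hcone he hne hR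
  refine ⟨h8, fun h0 => ?_⟩
  have hTR : T ≤ R := fun x hx => (hR x).2 fun y => Sym.van he hx y
  have hRfin : R.index ≠ 0 := by
    intro h
    have h1 := Subgroup.index_dvd_of_le (hT.trans hTR)
    rw [h, Nat.zero_dvd] at h1
    exact hfin h1
  obtain ⟨k, hk⟩ := exists_index_pow Nat.prime_two (T := R) (hT.trans hTR) hRfin
  by_contra hc
  have hk4 : k < 4 := by
    rw [not_le, hk] at hc
    exact (Nat.pow_lt_pow_iff_right one_lt_two).1 (by simpa using hc)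
  have hk3 : 3 ≤ k := by
    rw [hk] at h8
    exact (Nat.pow_le_pow_iff_right one_lt_two).1 (by simpa using h8)
  have hk' : k = 3 := by omega
  exact hc (h16 (rad8 he hR (by rw [hk, hk']; norm_num) h0))

theorem all_sub {F : Type} [Field F] {K : IntermediateField F (AlgebraicClosure F)}
    {ζ : F} (hζ : IsPrimitiveRoot ζ 2) (hfin : (pwG F 2).index ≠ 0)
    (hK : IsMaximalPExtension 2 K) :
    ∃ (n : ℕ) (B : Fin n → Subgroup Fˣ) (D : Fin n → Subgroup (↥K ≃ₐ[F] ↥K)),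
      Function.Injective B ∧ (∀ C, (∃ i, B i = C) ↔ C ∈ MG F 2 ∧ (C.index ≠ 2 ∨ -1 ∉ C)) ∧
      (∀ i, Loc (B i) (D i)) ∧
      IsFreeProduct 2 fun i => (D i).subgroupOf (⨆ j, D j).topologicalClosure := by
  obtain ⟨n, B, D, h1, h3, h4, hle, h5⟩ :=
    sub_main Pool.Agent.V7H88.FP.t_SEP Pool.Agent.V7H34.FP.t_SUB hζ hfin hK
  refine ⟨n, B, D, h1, h3, h4, ?_⟩
  intro P _ _ hP φ hφ
  have hto : ∀ i (x : D i), (⟨x.1, hle i x.2⟩ : (⨆ j, D j).topologicalClosure) ∈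
      (D i).subgroupOf (⨆ j, D j).topologicalClosure := fun i x => x.2
  let e : ∀ i, D i →* (D i).subgroupOf (⨆ j, D j).topologicalClosure := fun i =>
    { toFun := fun x => ⟨⟨x.1, hle i x.2⟩, hto i x⟩
      map_one' := rfl
      map_mul' := fun _ _ => rfl }
  have he : ∀ i, Continuous (e i) := fun i =>
    Continuous.subtype_mk (Continuous.subtype_mk continuous_subtype_val _) _
  obtain ⟨ψ, ⟨h6, h7⟩, h8⟩ := h5 P hP (fun i => (φ i).comp (e i)) fun i =>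
    (hφ i).preimage (he i)
  refine ⟨ψ, ⟨h6, fun i x => ?_⟩, ?_⟩
  · exact h7 i ⟨x.1.1, x.2⟩
  · rintro ψ' ⟨h9, h10⟩
    exact h8 ψ' ⟨h9, fun i x => h10 i (e i x)⟩

end Pool.Agent.V7H55.FP
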